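import Pool.Agent.helper96.DP.Basic

/-!
# Transfer: local functions on product spaces (project dp, part bf)

`LF Λ f`: the function `f` of a configuration depends only on the sites in the finite set `Λ`.
For such functions the integrals over `P1` and `PP ρ` are finite sums. The main tools are
the one-site formulas `ex1_site` and `ex2_site`, to be used in inductions over `Λ`.
-/

namespace DP

open MeasureTheory

/-- `f` depends only on the sites in `Λ`. -/
def LF {X Y : Type} (Λ : Finset V) (f : (V → X) → Y) : Prop :=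
  ∀ b b' : V → X, (∀ v ∈ Λ, b v = b' v) → f b = f b'

namespace LF

variable {X Y Z : Type} {Λ Λ' : Finset V}

theorem mono {f : (V → X) → Y} (h : LF Λ f) (hs : Λ ⊆ Λ') : LF Λ' f :=
  fun b b' hb => h b b' fun v hv => hb v (hs hv)

theorem const (c : Y) : LF Λ (fun _ : V → X => c) := fun _ _ _ => rfl

theorem comp {f : (V → X) → Y} (h : LF Λ f) (g : Y → Z) : LF Λ (fun b => g (f b)) :=
  fun b b' hb => congrArg g (h b b' hb)

theorem comp₂ {W : Type} {f : (V → X) → Y} {g : (V → X) → Z} (hf : LF Λ f) (hg : LF Λ g)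
    (k : Y → Z → W) : LF Λ (fun b => k (f b) (g b)) :=
  fun b b' hb => by
    show k (f b) (g b) = k (f b') (g b')
    rw [hf b b' hb, hg b b' hb]

/-- Functions of the first configuration. -/
theorem fst {f : (V → Bool) → Y} (h : LF Λ f) :
    LF Λ (fun w : V → Bool × Bool => f fun v => (w v).1) :=
  fun b b' hb => h _ _ fun v hv => by rw [hb v hv]

/-- Functions of the second configuration. -/
theorem snd {f : (V → Bool) → Y} (h : LF Λ f) :
    LF Λ (fun w : V → Bool × Bool => f fun v => (w v).2) :=
  fun b b' hb => h _ _ fun v hv => by rw [hb v hv]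

theorem update {f : (V → X) → Y} {v : V} (h : LF (insert v Λ) f) (a : X) :
    LF Λ (fun b => f (Function.update b v a)) := by
  intro b b' hb
  refine h _ _ fun u hu => ?_
  by_cases huv : u = v
  · subst huv; simp
  · rw [Function.update_of_ne huv, Function.update_of_ne huv]
    exact hb u ((Finset.mem_insert.1 hu).resolve_left huv)

theorem update' {f : (V → X) → Y} (h : LF Λ f) (v : V) (a : X) :
    LF (Λ.erase v) (fun b => f (Function.update b v a)) := by
  intro b b' hb
  refine h _ _ fun u hu => ?_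
  by_cases huv : u = v
  · subst huv; simp
  · rw [Function.update_of_ne huv, Function.update_of_ne huv]
    exact hb u (Finset.mem_erase.2 ⟨huv, hu⟩)

/-- Updating a site outside the set changes nothing. -/
theorem update_eq {f : (V → X) → Y} {v : V} (h : LF Λ f) (hv : v ∉ Λ) (b : V → X) (a : X) :
    f (Function.update b v a) = f b :=
  h _ _ fun u hu => Function.update_of_ne (fun e => hv (by rw [← e]; exact hu)) _ _

/-- A function which depends on no site is constant. -/
theorem empty {f : (V → X) → Y} (h : LF ∅ f) (b b' : V → X) : f b = f b' :=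
  h b b' fun v hv => absurd hv (Finset.notMem_empty v)

end LF

/-- Indicator (as a function with values in `{0, 1}`). -/
noncomputable def ind {X : Type} (F : Set (V → X)) : (V → X) → ℝ := F.indicator 1

open Classical in
theorem ind_apply {X : Type} (F : Set (V → X)) (b : V → X) : ind F b = if b ∈ F then 1 else 0 := by
  unfold ind
  rw [Set.indicator_apply]
  simp

theorem ind_of_mem {X : Type} {F : Set (V → X)} {b : V → X} (h : b ∈ F) : ind F b = 1 := by
  rw [ind_apply, if_pos h]

theorem ind_of_notMem {X : Type} {F : Set (V → X)} {b : V → X} (h : b ∉ F) : ind F b = 0 := by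
  rw [ind_apply, if_neg h]

theorem ind_nonneg {X : Type} (F : Set (V → X)) (b : V → X) : 0 ≤ ind F b := by
  rw [ind_apply]; split_ifs <;> norm_num

theorem ind_le_one {X : Type} (F : Set (V → X)) (b : V → X) : ind F b ≤ 1 := by
  rw [ind_apply]; split_ifs <;> norm_num

theorem ind_mul_self {X : Type} (F : Set (V → X)) (b : V → X) : ind F b * ind F b = ind F b := by
  rw [ind_apply]; split_ifs <;> norm_num

theorem ind_inter {X : Type} (F G : Set (V → X)) (b : V → X) :
    ind (F ∩ G) b = ind F b * ind G b := by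
  classical
  simp only [ind_apply, Set.mem_inter_iff]
  by_cases h : b ∈ F <;> by_cases h' : b ∈ G <;> simp [h, h']

theorem Dep.lf {Λ : Finset V} {F : Set (V → Bool)} (h : Dep F (Λ : Set V)) : LF Λ (ind F) := by
  intro b b' hb
  by_cases hF : b ∈ F
  · rw [ind_of_mem hF, ind_of_mem ((h b b' hb).1 hF)]
  · rw [ind_of_notMem hF, ind_of_notMem (fun h' => hF ((h b b' hb).2 h'))]

theorem Loc.common {A A' : Set V} {F G : Set (V → Bool)} (hF : Loc F A) (hG : Loc G A') :
    ∃ Λ : Finset V, (Λ : Set V) ⊆ A ∪ A' ∧ Dep F (Λ : Set V) ∧ Dep G (Λ : Set V) := by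
  classical
  obtain ⟨Λ, h1, h2⟩ := hF
  obtain ⟨Λ', h1', h2'⟩ := hG
  refine ⟨Λ ∪ Λ', ?_, h2.mono ?_, h2'.mono ?_⟩
  · rw [Finset.coe_union]; exact Set.union_subset_union h1 h1'
  · rw [Finset.coe_union]; exact Set.subset_union_left
  · rw [Finset.coe_union]; exact Set.subset_union_right

/-! ## General product measures with a finite state space -/

section general

variable {X : Type} [Fintype X] [Inhabited X] [MeasurableSpace X] [MeasurableSingletonClass X]

/-- Extension of a configuration in `Λ`. -/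
def ext (Λ : Finset V) (x : Λ → X) : V → X := fun v => if h : v ∈ Λ then x ⟨v, h⟩ else default

omit [Fintype X] [MeasurableSpace X] [MeasurableSingletonClass X] in
theorem ext_restrict {Y : Type} {Λ : Finset V} {f : (V → X) → Y} (h : LF Λ f) (b : V → X) :
    f (ext Λ (Λ.restrict b)) = f b :=
  h _ _ fun v hv => by simp [ext, hv]

theorem LF.measurable {Y : Type} [MeasurableSpace Y] {Λ : Finset V} {f : (V → X) → Y}
    (h : LF Λ f) : Measurable f := by
  have h1 : f = (fun x : Λ → X => f (ext Λ x)) ∘ Λ.restrict := by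
    funext b; exact (ext_restrict h b).symm
  rw [h1]
  exact (measurable_of_finite _).comp (Finset.measurable_restrict Λ)

omit [MeasurableSpace X] [MeasurableSingletonClass X] in
theorem LF.bounded {Λ : Finset V} {f : (V → X) → ℝ} (h : LF Λ f) : ∃ C : ℝ, ∀ b, |f b| ≤ C := by
  classical
  refine ⟨∑ x : Λ → X, |f (ext Λ x)|, fun b => ?_⟩
  rw [← ext_restrict h b]
  exact Finset.single_le_sum (f := fun x : Λ → X => |f (ext Λ x)|) (fun _ _ => abs_nonneg _)
    (Finset.mem_univ _)

theorem LF.integrable {Λ : Finset V} {f : (V → X) → ℝ} (h : LF Λ f) (μ : Measure (V → X))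
    [IsFiniteMeasure μ] : Integrable f μ := by
  obtain ⟨C, hC⟩ := h.bounded
  exact Integrable.of_bound h.measurable.aestronglyMeasurable C
    (Filter.Eventually.of_forall fun b => by rw [Real.norm_eq_abs]; exact hC b)

/-- Integrals of local functions are finite sums. -/
theorem integral_eq_sum (μ : V → Measure X) [∀ v, IsProbabilityMeasure (μ v)] {Λ : Finset V}
    {f : (V → X) → ℝ} (h : LF Λ f) :
    ∫ b, f b ∂(Measure.infinitePi μ) =
      ∑ x : Λ → X, (∏ v, (μ v.1).real {x v}) * f (ext Λ x) := by
  classical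
  have h1 : ∀ b, f b = (fun x : Λ → X => f (ext Λ x)) (Λ.restrict b) :=
    fun b => (ext_restrict h b).symm
  rw [integral_congr_ae (Filter.Eventually.of_forall h1),
    integral_restrict_infinitePi (X := fun _ : V => X) (μ := μ) (s := Λ)
      (f := fun x : Λ → X => f (ext Λ x)) (measurable_of_finite _).aestronglyMeasurable,
    integral_fintype Integrable.of_finite]
  refine Finset.sum_congr rfl fun x _ => ?_
  rw [smul_eq_mul]
  congr 1
  rw [measureReal_def, ← Set.univ_pi_singleton, Measure.pi_pi, ENNReal.toReal_prod]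
  rfl

omit [Fintype X] [Inhabited X] [MeasurableSingletonClass X] in
/-- Resampling one site. -/
theorem map_update (μ : V → Measure X) [∀ v, IsProbabilityMeasure (μ v)] (v : V) :
    ((μ v).prod (Measure.infinitePi μ)).map (fun p => Function.update p.2 v p.1) =
      Measure.infinitePi μ := by
  classical
  have hm : Measurable fun p : X × (V → X) => Function.update p.2 v p.1 := by
    rw [measurable_pi_iff]
    intro u
    by_cases h : u = v
    · subst h
      simpa using measurable_fst
    · simp only [Function.update_of_ne h]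
      exact (measurable_pi_apply u).comp measurable_snd
  refine Measure.eq_infinitePi μ fun s t ht => ?_
  rw [Measure.map_apply hm (MeasurableSet.pi s.countable_toSet fun i _ => ht i)]
  have h1 : (fun p : X × (V → X) => Function.update p.2 v p.1) ⁻¹' (Set.pi (s : Set V) t) =
      (if v ∈ s then t v else Set.univ) ×ˢ (Set.pi ((s.erase v : Finset V) : Set V) t) := by
    ext p
    simp only [Set.mem_preimage, Set.mem_pi, Set.mem_prod, Finset.mem_coe, Finset.mem_erase]
    constructor
    · intro h
      refine ⟨?_, fun i hi => ?_⟩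
      · split_ifs with hv
        · simpa using h v hv
        · trivial
      · simpa [Function.update_of_ne hi.1] using h i hi.2
    · rintro ⟨h2, h3⟩ i hi
      by_cases hiv : i = v
      · subst hiv
        rw [if_pos hi] at h2
        simpa using h2
      · rw [Function.update_of_ne hiv]
        exact h3 i ⟨hiv, hi⟩
  rw [h1, Measure.prod_prod, Measure.infinitePi_pi μ (fun i _ => ht i)]
  by_cases hv : v ∈ s
  · rw [if_pos hv, Finset.mul_prod_erase s (fun i => μ i (t i)) hv]
  · rw [if_neg hv, measure_univ, one_mul, Finset.erase_eq_of_notMem hv]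

theorem integral_site (μ : V → Measure X) [∀ v, IsProbabilityMeasure (μ v)] {Λ : Finset V}
    {f : (V → X) → ℝ} (h : LF Λ f) (v : V) :
    ∫ b, f b ∂(Measure.infinitePi μ) =
      ∑ a : X, (μ v).real {a} * ∫ b, f (Function.update b v a) ∂(Measure.infinitePi μ) := by
  classical
  have hm : Measurable fun p : X × (V → X) => Function.update p.2 v p.1 := by
    rw [measurable_pi_iff]
    intro u
    by_cases h : u = v
    · subst h
      simpa using measurable_fst
    · simp only [Function.update_of_ne h]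
      exact (measurable_pi_apply u).comp measurable_snd
  obtain ⟨C, hC⟩ := h.bounded
  calc ∫ b, f b ∂(Measure.infinitePi μ)
      = ∫ b, f b ∂(((μ v).prod (Measure.infinitePi μ)).map
          (fun p => Function.update p.2 v p.1)) := by rw [map_update]
    _ = ∫ p, f (Function.update p.2 v p.1) ∂((μ v).prod (Measure.infinitePi μ)) :=
        integral_map hm.aemeasurable h.measurable.aestronglyMeasurable
    _ = ∫ a, ∫ b, f (Function.update b v a) ∂(Measure.infinitePi μ) ∂(μ v) := by
        refine integral_prod (fun p : X × (V → X) => f (Function.update p.2 v p.1)) ?_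
        exact Integrable.of_bound (h.measurable.comp hm).aestronglyMeasurable C
          (Filter.Eventually.of_forall fun b => by rw [Real.norm_eq_abs]; exact hC _)
    _ = _ := by
        rw [integral_fintype Integrable.of_finite]
        rfl

omit [Fintype X] [Inhabited X] [MeasurableSingletonClass X] in
/-- Mixing two independent configurations. -/
theorem map_mix (μ : V → Measure X) [∀ v, IsProbabilityMeasure (μ v)] (S : Finset V) :
    ((Measure.infinitePi μ).prod (Measure.infinitePi μ)).map
      (fun p v => if v ∈ S then p.1 v else p.2 v) = Measure.infinitePi μ := by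
  classical
  have hm : Measurable fun (p : (V → X) × (V → X)) (v : V) => if v ∈ S then p.1 v else p.2 v := by
    rw [measurable_pi_iff]
    intro u
    by_cases h : u ∈ S
    · simp only [h, if_true]
      exact (measurable_pi_apply u).comp measurable_fst
    · simp only [h, if_false]
      exact (measurable_pi_apply u).comp measurable_snd
  refine Measure.eq_infinitePi μ fun s t ht => ?_
  rw [Measure.map_apply hm (MeasurableSet.pi s.countable_toSet fun i _ => ht i)]
  have h1 : (fun (p : (V → X) × (V → X)) (v : V) => if v ∈ S then p.1 v else p.2 v) ⁻¹'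
      (Set.pi (s : Set V) t) =
      (Set.pi ((s.filter (· ∈ S) : Finset V) : Set V) t) ×ˢ
        (Set.pi ((s.filter (· ∉ S) : Finset V) : Set V) t) := by
    ext p
    simp only [Set.mem_preimage, Set.mem_pi, Set.mem_prod, Finset.mem_coe, Finset.mem_filter]
    constructor
    · intro h
      refine ⟨fun i hi => ?_, fun i hi => ?_⟩
      · simpa [hi.2] using h i hi.1
      · simpa [hi.2] using h i hi.1
    · rintro ⟨h2, h3⟩ i hi
      by_cases hiS : i ∈ S
      · rw [if_pos hiS]; exact h2 i ⟨hi, hiS⟩
      · rw [if_neg hiS]; exact h3 i ⟨hi, hiS⟩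
  rw [h1, Measure.prod_prod, Measure.infinitePi_pi μ (fun i _ => ht i),
    Measure.infinitePi_pi μ (fun i _ => ht i), Finset.prod_filter_mul_prod_filter_not]

theorem integral_mix (μ : V → Measure X) [∀ v, IsProbabilityMeasure (μ v)] {Λ : Finset V}
    {f : (V → X) → ℝ} (h : LF Λ f) (S : Finset V) :
    ∫ b, ∫ b', f (fun v => if v ∈ S then b v else b' v) ∂(Measure.infinitePi μ)
      ∂(Measure.infinitePi μ) = ∫ b, f b ∂(Measure.infinitePi μ) := by
  classical
  have hm : Measurable fun (p : (V → X) × (V → X)) (v : V) => if v ∈ S then p.1 v else p.2 v := by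
    rw [measurable_pi_iff]
    intro u
    by_cases h : u ∈ S
    · simp only [h, if_true]
      exact (measurable_pi_apply u).comp measurable_fst
    · simp only [h, if_false]
      exact (measurable_pi_apply u).comp measurable_snd
  obtain ⟨C, hC⟩ := h.bounded
  symm
  calc ∫ b, f b ∂(Measure.infinitePi μ)
      = ∫ b, f b ∂(((Measure.infinitePi μ).prod (Measure.infinitePi μ)).map
          (fun p v => if v ∈ S then p.1 v else p.2 v)) := by rw [map_mix]
    _ = ∫ p, f (fun v => if v ∈ S then p.1 v else p.2 v)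
          ∂((Measure.infinitePi μ).prod (Measure.infinitePi μ)) :=
        integral_map hm.aemeasurable h.measurable.aestronglyMeasurable
    _ = _ := by
        refine integral_prod
          (fun p : (V → X) × (V → X) => f (fun v => if v ∈ S then p.1 v else p.2 v)) ?_
        exact Integrable.of_bound (h.measurable.comp hm).aestronglyMeasurable C
          (Filter.Eventually.of_forall fun b => by rw [Real.norm_eq_abs]; exact hC _)

end general

/-! ## The measures `P1` and `PP ρ` -/

/-- Expectation for one configuration. -/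
noncomputable def ex1 (f : (V → Bool) → ℝ) : ℝ := ∫ b, f b ∂P1

/-- Expectation for a pair of configurations. -/
noncomputable def ex2 (ρ : V → ℝ) (h : (V → Bool × Bool) → ℝ) : ℝ := ∫ w, h w ∂PP ρ

instance : IsProbabilityMeasure P1 := by unfold P1; infer_instance

instance (ρ : V → ℝ) : IsProbabilityMeasure (PP ρ) := by unfold PP; infer_instance

theorem coin_real (a : Bool) : ((PMF.uniformOfFintype Bool).toMeasure).real {a} = 1 / 2 := by
  rw [measureReal_def, PMF.toMeasure_apply_singleton _ _ (measurableSet_singleton a)]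
  simp

theorem pairLaw_real (r : ℝ) (a : Bool × Bool) : (pairLaw r).real {a} = wt r a := by
  classical
  rw [measureReal_def, pairLaw, Measure.finsetSum_apply]
  rw [Finset.sum_eq_single a]
  · simp [wt_nonneg]
  · intro b _ hb
    simp [hb]
  · intro h; exact absurd (Finset.mem_univ a) h

variable {Λ Λ' : Finset V}

theorem ex1_eq_sum {f : (V → Bool) → ℝ} (h : LF Λ f) :
    ex1 f = (1 / 2) ^ Λ.card * ∑ x : Λ → Bool, f (ext Λ x) := by
  unfold ex1 P1
  rw [integral_eq_sum _ h, Finset.mul_sum]
  refine Finset.sum_congr rfl fun x _ => ?_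
  congr 1
  rw [Finset.prod_congr rfl fun v _ => coin_real (x v)]
  simp

theorem ex2_eq_sum {f : (V → Bool × Bool) → ℝ} (ρ : V → ℝ) (h : LF Λ f) :
    ex2 ρ f = ∑ x : Λ → Bool × Bool, (∏ v, wt (ρ v.1) (x v)) * f (ext Λ x) := by
  unfold ex2 PP
  rw [integral_eq_sum _ h]
  refine Finset.sum_congr rfl fun x _ => ?_
  congr 1
  exact Finset.prod_congr rfl fun v _ => pairLaw_real _ _

theorem ex1_site {f : (V → Bool) → ℝ} (h : LF Λ f) (v : V) :
    ex1 f = (ex1 (fun b => f (Function.update b v true)) +
      ex1 (fun b => f (Function.update b v false))) / 2 := by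
  have h1 := integral_site (fun _ : V => (PMF.uniformOfFintype Bool).toMeasure) h v
  rw [Fintype.sum_bool, coin_real, coin_real] at h1
  unfold ex1 P1
  rw [h1]
  ring

theorem ex2_site {f : (V → Bool × Bool) → ℝ} (ρ : V → ℝ) (h : LF Λ f) (v : V) :
    ex2 ρ f = ∑ a : Bool × Bool, wt (ρ v) a * ex2 ρ (fun w => f (Function.update w v a)) := by
  have h1 := integral_site (fun v : V => pairLaw (ρ v)) h v
  unfold ex2 PP
  rw [h1]
  exact Finset.sum_congr rfl fun a _ => by rw [pairLaw_real]

/-- Dependence on the profile. -/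
theorem ex2_congr {f : (V → Bool × Bool) → ℝ} {ρ ρ' : V → ℝ} (h : LF Λ f)
    (hρ : ∀ v ∈ Λ, ρ v = ρ' v) : ex2 ρ f = ex2 ρ' f := by
  rw [ex2_eq_sum ρ h, ex2_eq_sum ρ' h]
  refine Finset.sum_congr rfl fun x _ => ?_
  congr 1
  exact Finset.prod_congr rfl fun v _ => by rw [hρ v.1 v.2]

/-! ### Linearity, monotonicity -/

theorem ex1_const (c : ℝ) : ex1 (fun _ => c) = c := by simp [ex1]

theorem ex2_const (ρ : V → ℝ) (c : ℝ) : ex2 ρ (fun _ => c) = c := by simp [ex2]

theorem ex1_add {f g : (V → Bool) → ℝ} (hf : LF Λ f) (hg : LF Λ g) :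
    ex1 (fun b => f b + g b) = ex1 f + ex1 g :=
  integral_add (hf.integrable _) (hg.integrable _)

theorem ex2_add {f g : (V → Bool × Bool) → ℝ} (ρ : V → ℝ) (hf : LF Λ f) (hg : LF Λ g) :
    ex2 ρ (fun b => f b + g b) = ex2 ρ f + ex2 ρ g :=
  integral_add (hf.integrable _) (hg.integrable _)

theorem ex1_sub {f g : (V → Bool) → ℝ} (hf : LF Λ f) (hg : LF Λ g) :
    ex1 (fun b => f b - g b) = ex1 f - ex1 g :=
  integral_sub (hf.integrable _) (hg.integrable _)

theorem ex2_sub {f g : (V → Bool × Bool) → ℝ} (ρ : V → ℝ) (hf : LF Λ f) (hg : LF Λ g) :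
    ex2 ρ (fun b => f b - g b) = ex2 ρ f - ex2 ρ g :=
  integral_sub (hf.integrable _) (hg.integrable _)

theorem ex1_mul (c : ℝ) (f : (V → Bool) → ℝ) : ex1 (fun b => c * f b) = c * ex1 f :=
  integral_const_mul c f

theorem ex2_mul (ρ : V → ℝ) (c : ℝ) (f : (V → Bool × Bool) → ℝ) :
    ex2 ρ (fun b => c * f b) = c * ex2 ρ f :=
  integral_const_mul c f

theorem ex1_mono {f g : (V → Bool) → ℝ} (hf : LF Λ f) (hg : LF Λ g) (h : ∀ b, f b ≤ g b) :
    ex1 f ≤ ex1 g :=
  integral_mono (hf.integrable _) (hg.integrable _) h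

theorem ex2_mono {f g : (V → Bool × Bool) → ℝ} (ρ : V → ℝ) (hf : LF Λ f) (hg : LF Λ g)
    (h : ∀ b, f b ≤ g b) : ex2 ρ f ≤ ex2 ρ g :=
  integral_mono (hf.integrable _) (hg.integrable _) h

theorem ex1_nonneg {f : (V → Bool) → ℝ} (h : ∀ b, 0 ≤ f b) : 0 ≤ ex1 f := integral_nonneg h

theorem ex2_nonneg {f : (V → Bool × Bool) → ℝ} (ρ : V → ℝ) (h : ∀ b, 0 ≤ f b) : 0 ≤ ex2 ρ f :=
  integral_nonneg h

theorem abs_ex1_le (f : (V → Bool) → ℝ) : |ex1 f| ≤ ex1 (fun b => |f b|) :=
  abs_integral_le_integral_abs

theorem abs_ex2_le (ρ : V → ℝ) (f : (V → Bool × Bool) → ℝ) : |ex2 ρ f| ≤ ex2 ρ (fun b => |f b|) :=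
  abs_integral_le_integral_abs

/-! ### Probabilities are expectations -/

theorem Dep.measurableSet {F : Set (V → Bool)} (h : Dep F (Λ : Set V)) : MeasurableSet F := by
  have h1 : LF Λ (fun b : V → Bool => b ∈ F) := fun b b' hb => propext (h b b' hb)
  exact measurableSet_setOfPred.2 h1.measurable

theorem Loc.measurableSet {F : Set (V → Bool)} {A : Set V} (h : Loc F A) : MeasurableSet F := by
  obtain ⟨Λ, _, h2⟩ := h
  exact h2.measurableSet

theorem Pr_eq {F : Set (V → Bool)} (h : Dep F (Λ : Set V)) : Pr F = ex1 (ind F) := by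
  unfold Pr ex1 ind
  rw [integral_indicator_one h.measurableSet]

/-- The bilinear form of the pair measure. -/
noncomputable def bf (ρ : V → ℝ) (f g : (V → Bool) → ℝ) : ℝ :=
  ex2 ρ (fun w => f (fun v => (w v).1) * g (fun v => (w v).2))

theorem lf_pair {f g : (V → Bool) → ℝ} (hf : LF Λ f) (hg : LF Λ g) :
    LF Λ (fun w : V → Bool × Bool => f (fun v => (w v).1) * g (fun v => (w v).2)) :=
  hf.fst.comp₂ hg.snd (· * ·)

theorem Q_eq {F G : Set (V → Bool)} (ρ : V → ℝ) (hF : Dep F (Λ : Set V)) (hG : Dep G (Λ : Set V)) :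
    Q ρ F G = bf ρ (ind F) (ind G) := by
  have hm1 : Measurable fun (w : V → Bool × Bool) (v : V) => (w v).1 := by fun_prop
  have hm2 : Measurable fun (w : V → Bool × Bool) (v : V) => (w v).2 := by fun_prop
  have hm : MeasurableSet {w : V → Bool × Bool |
      (fun v => (w v).1) ∈ F ∧ (fun v => (w v).2) ∈ G} :=
    (hm1 hF.measurableSet).inter (hm2 hG.measurableSet)
  unfold Q bf ex2
  rw [← integral_indicator_one hm]
  refine integral_congr_ae (Filter.Eventually.of_forall fun w => ?_)
  classical
  show Set.indicator _ _ w = ind F (fun v => (w v).1) * ind G (fun v => (w v).2)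
  rw [Set.indicator_apply, ind_apply, ind_apply]
  by_cases h1 : (fun v => (w v).1) ∈ F <;> by_cases h2 : (fun v => (w v).2) ∈ G <;>
    simp [h1, h2]

/-- `Q` of one event and of pairs of events given by a set of pair configurations. -/
theorem PP_real_eq {S : Set (V → Bool × Bool)} (ρ : V → ℝ)
    (h : ∀ w w' : V → Bool × Bool, (∀ v ∈ Λ, w v = w' v) → (w ∈ S ↔ w' ∈ S)) :
    (PP ρ).real S = ex2 ρ (ind S) := by
  have h1 : LF Λ (fun w : V → Bool × Bool => w ∈ S) := fun b b' hb => propext (h b b' hb)
  have hm : MeasurableSet S := measurableSet_setOfPred.2 h1.measurable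
  unfold ex2 ind
  rw [integral_indicator_one hm]

/-! ### The bilinear form -/

/-- The value of the profile cut to `[0, 1]`. -/
noncomputable def clip (r : ℝ) : ℝ := max 0 (min 1 r)

theorem clip_nonneg (r : ℝ) : 0 ≤ clip r := le_max_left _ _

theorem clip_le_one (r : ℝ) : clip r ≤ 1 := max_le zero_le_one (min_le_left _ _)

theorem clip_of_mem {r : ℝ} (h0 : 0 ≤ r) (h1 : r ≤ 1) : clip r = r := by
  unfold clip; rw [min_eq_right h1, max_eq_right h0]

theorem wt_eq (r : ℝ) (a : Bool × Bool) :
    wt r a = (1 - clip r) * (if a.1 = a.2 then 1 / 2 else 0) + clip r / 4 := rfl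

/-- The restriction of a function to a value at a site. -/
def upd {X : Type} (f : (V → X) → ℝ) (v : V) (a : X) : (V → X) → ℝ :=
  fun b => f (Function.update b v a)

/-- The discrete derivative. -/
def dv (v : V) (f : (V → Bool) → ℝ) : (V → Bool) → ℝ :=
  fun b => f (Function.update b v true) - f (Function.update b v false)

theorem LF.upd {X : Type} {f : (V → X) → ℝ} {v : V} (h : LF (insert v Λ) f) (a : X) :
    LF Λ (upd f v a) := h.update a

theorem LF.upd' {X : Type} {f : (V → X) → ℝ} (h : LF Λ f) (v : V) (a : X) :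
    LF (Λ.erase v) (DP.upd f v a) := h.update' v a

theorem LF.dv {f : (V → Bool) → ℝ} {v : V} (h : LF (insert v Λ) f) : LF Λ (DP.dv v f) :=
  (h.upd true).comp₂ (h.upd false) (· - ·)

theorem LF.dv' {f : (V → Bool) → ℝ} (h : LF Λ f) (v : V) : LF (Λ.erase v) (DP.dv v f) :=
  (h.upd' v true).comp₂ (h.upd' v false) (· - ·)

theorem upd_fst (w : V → Bool × Bool) (v : V) (a : Bool × Bool) :
    (fun u => (Function.update w v a u).1) = Function.update (fun u => (w u).1) v a.1 := by
  funext u
  by_cases h : u = v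
  · subst h; simp
  · simp [Function.update_of_ne h]

theorem upd_snd (w : V → Bool × Bool) (v : V) (a : Bool × Bool) :
    (fun u => (Function.update w v a u).2) = Function.update (fun u => (w u).2) v a.2 := by
  funext u
  by_cases h : u = v
  · subst h; simp
  · simp [Function.update_of_ne h]

/-- One-site formula for the bilinear form. -/
theorem bf_site' {f g : (V → Bool) → ℝ} (ρ : V → ℝ) (hf : LF Λ f) (hg : LF Λ g) (v : V) :
    bf ρ f g = ∑ a : Bool × Bool, wt (ρ v) a * bf ρ (upd f v a.1) (upd g v a.2) := by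
  unfold bf
  rw [ex2_site ρ (lf_pair hf hg) v]
  refine Finset.sum_congr rfl fun a _ => ?_
  congr 2
  funext w
  rw [upd_fst, upd_snd]
  rfl

theorem bf_add_left {f f' g : (V → Bool) → ℝ} (ρ : V → ℝ) (hf : LF Λ f) (hf' : LF Λ f')
    (hg : LF Λ g) : bf ρ (fun b => f b + f' b) g = bf ρ f g + bf ρ f' g := by
  unfold bf
  rw [← ex2_add ρ (lf_pair hf hg) (lf_pair hf' hg)]
  congr 1; funext w; ring

theorem bf_add_right {f g g' : (V → Bool) → ℝ} (ρ : V → ℝ) (hf : LF Λ f) (hg : LF Λ g)
    (hg' : LF Λ g') : bf ρ f (fun b => g b + g' b) = bf ρ f g + bf ρ f g' := by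
  unfold bf
  rw [← ex2_add ρ (lf_pair hf hg) (lf_pair hf hg')]
  congr 1; funext w; ring

theorem bf_sub_left {f f' g : (V → Bool) → ℝ} (ρ : V → ℝ) (hf : LF Λ f) (hf' : LF Λ f')
    (hg : LF Λ g) : bf ρ (fun b => f b - f' b) g = bf ρ f g - bf ρ f' g := by
  unfold bf
  rw [← ex2_sub ρ (lf_pair hf hg) (lf_pair hf' hg)]
  congr 1; funext w; ring

theorem bf_sub_right {f g g' : (V → Bool) → ℝ} (ρ : V → ℝ) (hf : LF Λ f) (hg : LF Λ g)
    (hg' : LF Λ g') : bf ρ f (fun b => g b - g' b) = bf ρ f g - bf ρ f g' := by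
  unfold bf
  rw [← ex2_sub ρ (lf_pair hf hg) (lf_pair hf hg')]
  congr 1; funext w; ring

theorem bf_mul_left (ρ : V → ℝ) (c : ℝ) (f g : (V → Bool) → ℝ) :
    bf ρ (fun b => c * f b) g = c * bf ρ f g := by
  unfold bf
  rw [← ex2_mul]
  congr 1; funext w; ring

theorem bf_mul_right (ρ : V → ℝ) (c : ℝ) (f g : (V → Bool) → ℝ) :
    bf ρ f (fun b => c * g b) = c * bf ρ f g := by
  unfold bf
  rw [← ex2_mul]
  congr 1; funext w; ring

theorem bf_congr {f g : (V → Bool) → ℝ} {ρ ρ' : V → ℝ} (hf : LF Λ f) (hg : LF Λ g)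
    (hρ : ∀ v ∈ Λ, ρ v = ρ' v) : bf ρ f g = bf ρ' f g := ex2_congr (lf_pair hf hg) hρ

/-- One-site formula for the bilinear form. -/
theorem bf_site {f g : (V → Bool) → ℝ} (ρ : V → ℝ) (hf : LF Λ f) (hg : LF Λ g) (v : V) :
    bf ρ f g = (1 - clip (ρ v)) / 2 * (bf ρ (upd f v true) (upd g v true) +
        bf ρ (upd f v false) (upd g v false)) +
      clip (ρ v) / 4 * (bf ρ (upd f v true) (upd g v true) + bf ρ (upd f v true) (upd g v false) +
        bf ρ (upd f v false) (upd g v true) + bf ρ (upd f v false) (upd g v false)) := by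
  rw [bf_site' ρ hf hg v, Fintype.sum_prod_type]
  simp only [Fintype.sum_bool, wt_eq]
  simp
  ring

theorem bf_symm {f g : (V → Bool) → ℝ} (ρ : V → ℝ) (hf : LF Λ f) (hg : LF Λ g) :
    bf ρ f g = bf ρ g f := by
  classical
  induction Λ using Finset.induction_on generalizing f g with
  | empty =>
    unfold bf
    congr 1; funext w
    rw [hf.empty (fun v => (w v).1) (fun v => (w v).2),
      hg.empty (fun v => (w v).2) (fun v => (w v).1), mul_comm]
  | insert v s hv ih =>
    rw [bf_site ρ hf hg v, bf_site ρ hg hf v, ih (hf.upd true) (hg.upd true),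
      ih (hf.upd false) (hg.upd false), ih (hf.upd true) (hg.upd false),
      ih (hf.upd false) (hg.upd true)]
    ring

/-- Positivity. -/
theorem bf_nonneg {f : (V → Bool) → ℝ} (ρ : V → ℝ) (hf : LF Λ f) : 0 ≤ bf ρ f f := by
  classical
  induction Λ using Finset.induction_on generalizing f with
  | empty =>
    unfold bf
    refine ex2_nonneg ρ fun w => ?_
    rw [hf.empty (fun v => (w v).1) (fun v => (w v).2)]
    exact mul_self_nonneg _
  | insert v s hv ih =>
    have h1 := ih (hf.upd true)
    have h2 := ih (hf.upd false)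
    have hs : LF s (fun b => upd f v true b + upd f v false b) :=
      (hf.upd true).comp₂ (hf.upd false) (· + ·)
    have h3 := ih hs
    rw [bf_add_left ρ (hf.upd true) (hf.upd false) hs,
      bf_add_right ρ (hf.upd true) (hf.upd true) (hf.upd false),
      bf_add_right ρ (hf.upd false) (hf.upd true) (hf.upd false)] at h3
    rw [bf_site ρ hf hf v]
    have c0 := clip_nonneg (ρ v)
    have c1 := clip_le_one (ρ v)
    have e1 : 0 ≤ (1 - clip (ρ v)) / 2 * (bf ρ (upd f v true) (upd f v true) +
        bf ρ (upd f v false) (upd f v false)) := by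
      apply mul_nonneg <;> linarith
    have e2 : 0 ≤ clip (ρ v) / 4 * (bf ρ (upd f v true) (upd f v true) +
        bf ρ (upd f v true) (upd f v false) + bf ρ (upd f v false) (upd f v true) +
        bf ρ (upd f v false) (upd f v false)) := by
      apply mul_nonneg <;> linarith
    linarith

/-- Changing the noise at one site. -/
theorem bf_diff {f g : (V → Bool) → ℝ} (ρ : V → ℝ) (hf : LF Λ f) (hg : LF Λ g) (v : V) (t : ℝ) :
    bf ρ f g - bf (Function.update ρ v t) f g =
      (clip t - clip (ρ v)) / 4 * bf ρ (dv v f) (dv v g) := by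
  have hft := hf.upd' v true
  have hff := hf.upd' v false
  have hgt := hg.upd' v true
  have hgf := hg.upd' v false
  have hc : ∀ u ∈ Λ.erase v, Function.update ρ v t u = ρ u := fun u hu =>
    Function.update_of_ne (Finset.ne_of_mem_erase hu) _ _
  have hDf : LF (Λ.erase v) (dv v f) := hf.dv' v
  have hDg : LF (Λ.erase v) (dv v g) := hg.dv' v
  rw [bf_site ρ hf hg v, bf_site (Function.update ρ v t) hf hg v, bf_congr hft hgt hc,
    bf_congr hft hgf hc, bf_congr hff hgt hc, bf_congr hff hgf hc]
  have h1 : bf ρ (dv v f) (dv v g) = bf ρ (upd f v true) (upd g v true) -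
      bf ρ (upd f v true) (upd g v false) - bf ρ (upd f v false) (upd g v true) +
      bf ρ (upd f v false) (upd g v false) := by
    have e1 := bf_sub_left ρ hft hff hDg
    have e2 := bf_sub_right ρ hft hgt hgf
    have e3 := bf_sub_right ρ hff hgt hgf
    have e4 : bf ρ (dv v f) (dv v g) = bf ρ (fun b => upd f v true b - upd f v false b) (dv v g) := rfl
    have e5 : bf ρ (upd f v true) (dv v g) =
        bf ρ (upd f v true) (fun b => upd g v true b - upd g v false b) := rfl
    have e6 : bf ρ (upd f v false) (dv v g) =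
        bf ρ (upd f v false) (fun b => upd g v true b - upd g v false b) := rfl
    rw [e4, e1, e5, e6, e2, e3]
    ring
  rw [h1, Function.update_self]
  ring

/-- The first marginal. -/
theorem ex2_fst {f : (V → Bool) → ℝ} (ρ : V → ℝ) (hf : LF Λ f) :
    ex2 ρ (fun w => f (fun v => (w v).1)) = ex1 f := by
  classical
  induction Λ using Finset.induction_on generalizing f with
  | empty =>
    have h1 : ∀ b, f b = f (fun _ => false) := fun b => hf.empty _ _
    have h2 : (fun w : V → Bool × Bool => f (fun v => (w v).1)) = fun _ => f (fun _ => false) :=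
      funext fun w => h1 _
    rw [h2, ex2_const, show f = fun _ => f (fun _ => false) from funext h1, ex1_const]
  | insert v s hv ih =>
    rw [ex2_site ρ hf.fst v, ex1_site hf v, Fintype.sum_prod_type]
    have h3 : ∀ a : Bool × Bool, ex2 ρ (fun w => f (fun u => (Function.update w v a u).1)) =
        ex1 (upd f v a.1) := by
      intro a
      rw [← ih (hf.upd a.1)]
      congr 1; funext w
      rw [upd_fst]; rfl
    have h4 : ∀ a : Bool, ex1 (fun b => f (Function.update b v a)) = ex1 (upd f v a) := fun _ => rfl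
    rw [h4, h4]
    simp only [Fintype.sum_bool, h3, wt_eq]
    simp
    ring

theorem bf_one_right {f : (V → Bool) → ℝ} (ρ : V → ℝ) (hf : LF Λ f) :
    bf ρ f (fun _ => 1) = ex1 f := by
  unfold bf
  rw [← ex2_fst ρ hf]
  congr 1; funext w; ring

/-- The second marginal. -/
theorem ex2_snd {f : (V → Bool) → ℝ} (ρ : V → ℝ) (hf : LF Λ f) :
    ex2 ρ (fun w => f (fun v => (w v).2)) = ex1 f := by
  have h1 := bf_symm ρ (LF.const (Λ := Λ) (1 : ℝ)) hf
  rw [bf_one_right ρ hf] at h1
  rw [← h1]
  unfold bf
  congr 1; funext w; ring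

/-- Cauchy-Schwarz. -/
theorem bf_cs {f g : (V → Bool) → ℝ} (ρ : V → ℝ) (hf : LF Λ f) (hg : LF Λ g) :
    bf ρ f g ^ 2 ≤ bf ρ f f * bf ρ g g := by
  have hkey : ∀ t : ℝ, 0 ≤ bf ρ f f - 2 * t * bf ρ f g + t ^ 2 * bf ρ g g := by
    intro t
    have hgt : LF Λ (fun b => t * g b) := hg.comp (t * ·)
    have hs : LF Λ (fun b => f b - t * g b) := hf.comp₂ hgt (· - ·)
    have h1 := bf_nonneg ρ hs
    rw [bf_sub_left ρ hf hgt hs, bf_sub_right ρ hf hf hgt, bf_sub_right ρ hgt hf hgt,
      bf_mul_right, bf_mul_left, bf_mul_left, bf_mul_right, bf_symm ρ hg hf] at h1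
    nlinarith
  rcases (bf_nonneg ρ hg).eq_or_lt with h0 | h0
  · have h1 := hkey (bf ρ f f / 2 + 1)
    have h2 := hkey (-(bf ρ f f / 2 + 1))
    have h3 := hkey (bf ρ f g)
    rw [← h0] at h1 h2 h3 ⊢
    by_contra hne
    have hne' : bf ρ f g ≠ 0 := by
      intro h; rw [h] at hne; simp at hne
    have h4 := hkey (bf ρ f f / bf ρ f g)
    have h5 : bf ρ f f / bf ρ f g * bf ρ f g = bf ρ f f := div_mul_cancel₀ _ hne'
    have h6 := hkey ((bf ρ f f + 1) / bf ρ f g)
    have h7 : (bf ρ f f + 1) / bf ρ f g * bf ρ f g = bf ρ f f + 1 := div_mul_cancel₀ _ hne'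
    rw [← h0] at h6
    have h8 := bf_nonneg ρ hf
    nlinarith
  · have h1 := hkey (bf ρ f g / bf ρ g g)
    have h2 : bf ρ f g / bf ρ g g * bf ρ g g = bf ρ f g := div_mul_cancel₀ _ h0.ne'
    have h3 : 0 ≤ (bf ρ f f - 2 * (bf ρ f g / bf ρ g g) * bf ρ f g +
        (bf ρ f g / bf ρ g g) ^ 2 * bf ρ g g) * bf ρ g g := mul_nonneg h1 h0.le
    have h4 : (bf ρ f f - 2 * (bf ρ f g / bf ρ g g) * bf ρ f g +
        (bf ρ f g / bf ρ g g) ^ 2 * bf ρ g g) * bf ρ g g = bf ρ f f * bf ρ g g - bf ρ f g ^ 2 := by
      field_simp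
      ring
    linarith

/-- The square of the expectation. -/
theorem sq_ex1_le {f : (V → Bool) → ℝ} (ρ : V → ℝ) (hf : LF Λ f) : ex1 f ^ 2 ≤ bf ρ f f := by
  have h1 := bf_cs ρ hf (LF.const (Λ := Λ) (1 : ℝ))
  rw [bf_one_right ρ hf, bf_one_right ρ (LF.const (Λ := Λ) (1 : ℝ)), ex1_const, mul_one] at h1
  exact h1

end DP
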