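import Mathlib

/-!
# Critical dynamical percolation on the square lattice: the model of the final theorem
-/

namespace DynPerc

open MeasureTheory ProbabilityTheory

/-- The square lattice `ℤ²`. -/
def Z2 : SimpleGraph (ℤ × ℤ) where
  Adj u v := |u.1 - v.1| + |u.2 - v.2| = 1
  symm := ⟨fun u v h => by
    show |v.1 - u.1| + |v.2 - u.2| = 1
    rw [abs_sub_comm v.1, abs_sub_comm v.2]; exact h⟩
  loopless := ⟨fun u h => by simp at h⟩

/-- The edges of the square lattice. -/
abbrev Edge : Type := Z2.edgeSet

/-- The graph of the open (black) edges; `true` means open. -/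
def openGraph (ω : Edge → Bool) : SimpleGraph (ℤ × ℤ) where
  Adj u v := ∃ h : s(u, v) ∈ Z2.edgeSet, ω ⟨s(u, v), h⟩ = true
  symm := ⟨fun u v h => by
    obtain ⟨h1, h2⟩ := h
    refine ⟨Sym2.eq_swap ▸ h1, ?_⟩
    rw [← h2]
    congr 2
    exact Sym2.eq_swap⟩
  loopless := ⟨fun u h => by
    obtain ⟨h1, _⟩ := h
    exact Z2.loopless.irrefl u ((SimpleGraph.mem_edgeSet Z2).1 h1)⟩

/-- The graph of the open (white) dual edges. The point `a` of `ℤ × ℤ` stands for the vertex
`a + (1/2, 1/2)` of the dual lattice. The dual edge between `a + (1/2, 1/2)` and `b + (1/2, 1/2)`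
crosses the edge `{u, v}` of the square lattice which has the same midpoint, that is
`u + v = a + b + (1, 1)`, and it is open when this edge is closed. -/
def dualGraph (ω : Edge → Bool) : SimpleGraph (ℤ × ℤ) where
  Adj a b := Z2.Adj a b ∧ ∃ (u v : ℤ × ℤ) (h : s(u, v) ∈ Z2.edgeSet),
    u + v = a + b + (1, 1) ∧ ω ⟨s(u, v), h⟩ = false
  symm := ⟨fun a b h => by
    obtain ⟨h1, u, v, h2, h3, h4⟩ := h
    exact ⟨h1.symm, u, v, h2, by rw [h3, add_comm a b], h4⟩⟩
  loopless := ⟨fun a h => Z2.loopless.irrefl a h.1⟩

/-- Infinite cluster of open edges. -/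
def BlackPerc (ω : Edge → Bool) : Prop :=
  ∃ c : (openGraph ω).ConnectedComponent, c.supp.Infinite

/-- Infinite cluster of open dual edges. -/
def WhitePerc (ω : Edge → Bool) : Prop :=
  ∃ c : (dualGraph ω).ConnectedComponent, c.supp.Infinite

/-- Number of rings in the time interval `(0, t]` of a clock with waiting times `τ 0, τ 1, ...`. -/
noncomputable def rings (τ : ℕ → ℝ) (t : ℝ) : ℕ :=
  {k : ℕ | ∑ i ∈ Finset.range (k + 1), τ i ≤ t}.ncard

/-- Dynamical percolation at `p = 1/2` on the probability space `(Ω, P)`: the edge `e` has a Poisson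
clock of rate one with waiting times `τ e 0, τ e 1, ...` (independent, exponential with
parameter one) and independent fair coins `U e 0, U e 1, ...` (the initial state and the fresh
coins used at the rings). Clock and coins of an edge are independent, and different edges are
independent. -/
structure IsDynPerc {Ω : Type*} [MeasurableSpace Ω] (P : Measure Ω) (τ : Edge → ℕ → Ω → ℝ)
    (U : Edge → ℕ → Ω → Bool) : Prop where
  measurable_wait : ∀ e k, Measurable (τ e k)
  measurable_coin : ∀ e k, Measurable (U e k)
  law_wait : ∀ e k, P.map (τ e k) = expMeasure 1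
  law_coin : ∀ e k, P.map (U e k) = (PMF.uniformOfFintype Bool).toMeasure
  indep_wait : ∀ e, iIndepFun (τ e) P
  indep_coin : ∀ e, iIndepFun (U e) P
  indep_wait_coin : ∀ e, IndepFun (fun x k => τ e k x) (fun x k => U e k x) P
  indep_edges : iIndepFun (fun e x => ((fun k => τ e k x), (fun k => U e k x))) P

/-- The state of the edges at time `t`: every edge has the coin of its last ring. -/
noncomputable def state {Ω : Type*} (τ : Edge → ℕ → Ω → ℝ) (U : Edge → ℕ → Ω → Bool) (x : Ω)
    (t : ℝ) : Edge → Bool :=
  fun e => U e (rings (fun k => τ e k x) t) x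

end DynPerc
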