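import Pool.Agent.helper96.DP.API
import Pool.Agent.helper95.DP.Fin
import Pool.Agent.helper95.DP.Model

/-!
# Part H (dynamics): definitions and statements of the modules

Every module proves `theorem XX : XX_stmt`, or with statements of this file (or of API.lean, or
of SpecE/SpecF) as hypotheses. Proof sketches are in the docstrings.
-/

namespace DP

open MeasureTheory ProbabilityTheory Filter Topology

/-- Waiting times and coins of one site. -/
abbrev Path : Type := (ℕ → ℝ) × (ℕ → Bool)

/-- Time of the `k`-th ring (`rt x 0 = 0`). -/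
def rt (x : ℕ → ℝ) (k : ℕ) : ℝ := ∑ i ∈ Finset.range k, x i

/-- Number of rings in `(0, t]`; by definition `{k : ℕ | rt x (k + 1) ≤ t}.ncard`. -/
noncomputable abbrev cnt (x : ℕ → ℝ) (t : ℝ) : ℕ := DynPerc.rings x t

/-- State of a site at time `t`. -/
noncomputable def st (x : Path) (t : ℝ) : Bool := x.2 (cnt x.1 t)

/-- Configuration at time `t`. -/
noncomputable def cfg (X : V → Path) (t : ℝ) : V → Bool := fun v => st (X v) t

instance : IsProbabilityMeasure (expMeasure 1) := isProbabilityMeasure_expMeasure one_pos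

/-- Law of the waiting times of one site. -/
noncomputable def nuT : Measure (ℕ → ℝ) := Measure.infinitePi fun _ : ℕ => expMeasure 1

/-- Law of the coins of one site. -/
noncomputable def nuU : Measure (ℕ → Bool) :=
  Measure.infinitePi fun _ : ℕ => (PMF.uniformOfFintype Bool).toMeasure

instance : IsProbabilityMeasure nuT := by unfold nuT; infer_instance
instance : IsProbabilityMeasure nuU := by unfold nuU; infer_instance

/-- Law of waiting times and coins of one site. -/
noncomputable def nu : Measure Path := nuT.prod nuU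

instance : IsProbabilityMeasure nu := by unfold nu; infer_instance

/-- All sites. -/
noncomputable def PV : Measure (V → Path) := Measure.infinitePi fun _ : V => nu

instance : IsProbabilityMeasure PV := by unfold PV; infer_instance

/-- Good waiting times. -/
def GoodT (x : ℕ → ℝ) : Prop := (∀ i, 0 < x i) ∧ Tendsto (rt x) atTop atTop

/-! ## One clock -/

/-- HEX. The exponential distribution: tail and no atoms.
Proof: `cdf_expMeasure_eq`, `measure_cdf`; the measure has a density. -/
def HEX_stmt : Prop :=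
  (∀ t : ℝ, 0 ≤ t → (expMeasure 1).real (Set.Ioi t) = Real.exp (-t)) ∧
    (∀ c : ℝ, (expMeasure 1) {c} = 0) ∧ (expMeasure 1) (Set.Iic 0) = 0

/-- HGD. Almost every sequence of waiting times is good.
Proof: every waiting time is positive a.s.; for every `n`, a.s. there is `i ≥ n` with `1 < x i`, because
the probability that `x n, ..., x (n+k-1) ≤ 1` is `(1 - 1/e)^k → 0` (`Measure.infinitePi_pi`);
hence the increasing sequence `rt x` is unbounded. -/
def HGD_stmt : Prop := ∀ᵐ x ∂nuT, GoodT x

/-- HCN. The number of rings (deterministic): `{k | rt x (k+1) ≤ t}` is an initial segment. -/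
def HCN_stmt : Prop :=
  ∀ x : ℕ → ℝ, GoodT x → ∀ t : ℝ, 0 ≤ t → ∀ k : ℕ, cnt x t = k ↔ rt x k ≤ t ∧ t < rt x (k + 1)

/-- HRC. Right continuity and left limits (deterministic; use HCN). -/
def HRC_stmt : Prop :=
  ∀ x : ℕ → ℝ, GoodT x →
    (∀ t : ℝ, 0 ≤ t → ∃ δ : ℝ, 0 < δ ∧ ∀ s, t ≤ s → s < t + δ → cnt x s = cnt x t) ∧
    (∀ t : ℝ, 0 < t → ∃ δ : ℝ, 0 < δ ∧ ∃ k : ℕ,
      (∀ s, 0 ≤ s → t - δ < s → s < t → cnt x s = k) ∧
        ((∀ j, rt x (j + 1) ≠ t) → k = cnt x t))

/-- HMS. Joint measurability. `{(t, x) | rt x (k+1) ≤ t}` is measurable; `ncard s = n` for `n ≠ 0` means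
that `s` is one of countably many finite sets; then `st` by cases on the value of `cnt`. -/
def HMS_stmt : Prop :=
  Measurable (fun p : ℝ × (ℕ → ℝ) => cnt p.2 p.1) ∧ Measurable (fun p : ℝ × Path => st p.2 p.1)

/-- HIN. No ring in `(s, t]` has probability `exp (-(t-s))`.
Proof: for good `x` (HGD, HCN) the event is the disjoint union over `k` of
`{rt x k ≤ s} ∩ {t < rt x k + x k}`; `rt x k` does not depend on the coordinate `k`; resampling the
coordinate `k` (see `map_update` in Fin.lean, same proof for the index set `ℕ`, or `iIndepFun`)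
the probability of the `k`-th event is the integral of `1_{rt x k ≤ s} exp (-(t - rt x k))`
(HEX), which is `exp (-(t-s))` times the same thing with `t = s`; finally the events with `t = s` have
total probability `1`. -/
def HIN_stmt : Prop :=
  ∀ s t : ℝ, 0 ≤ s → s ≤ t → nuT.real {x | cnt x s = cnt x t} = Real.exp (-(t - s))

/-- HPR. Law of the states at two times.
Proof: by `nu = nuT.prod nuU`: for fixed waiting times `x`, with `k = cnt x s`, `l = cnt x t`,
`nuU {u | (u k, u l) = a}` is `1/2` or `0` if `k = l` and `1/4` if `k ≠ l`; integrate over `x`, HIN. -/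
def HPR_stmt : Prop :=
  ∀ s t : ℝ, 0 ≤ s → s ≤ t →
    nu.map (fun x => (st x s, st x t)) = pairLaw (1 - Real.exp (-(t - s)))

/-- HLW. Law of the configurations at two times and at one time (`infinitePi_map_pi`, HPR, HMS). -/
def HLW_stmt : Prop :=
  (∀ s t : ℝ, 0 ≤ s → s ≤ t → PV.map (fun X v => (st (X v) s, st (X v) t)) =
    PP (fun _ => 1 - Real.exp (-(t - s)))) ∧
  (∀ t : ℝ, 0 ≤ t → PV.map (fun X => cfg X t) = P1)

/-! ## Second moment -/

/-- HSM. Second moment bound (Paley-Zygmund). With `Z(X) = ∫ t in a..b, f (cfg X t)`: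
`E Z = (b-a) ex1 f` and `E Z^2 = ∫∫ bf (1 - exp(-|t-s|)) f f ≤ 2 (b-a) C (ex1 f)^2` by Fubini and HLW (joint
measurability: HMS), so `P(Z > 0) ≥ (b-a)/(2C)` by Cauchy-Schwarz. If `Z > 0` and all sites of
`Λ` have good clocks there is `t ∈ (a, b)` with `0 < f (cfg X t)`, and by HRC a rational such time. -/
def HSM_stmt : Prop :=
  ∀ (Λ : Finset V) (f : (V → Bool) → ℝ) (a b C : ℝ), LF Λ f → (∀ x, 0 ≤ f x) → 0 ≤ a → a < b →
    b ≤ a + 1 → 0 < C → 0 < ex1 f →
    (∫ u in (0 : ℝ)..1, bf (fun _ => 1 - Real.exp (-u)) f f) ≤ C * ex1 f ^ 2 →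
      (b - a) / (2 * C) ≤ PV.real {X | ∃ q : ℚ, a ≤ q ∧ q ≤ b ∧ 0 < f (cfg X q)}

/-- HCE. Conditional expectation given the coins in the box of radius `N`. `ex1_mix` type
computation: by `Q_eq`, `bf` and resampling of the coordinates outside `Λ₀` (induction over sites with
`bf_site`, or `integral_mix`). -/
def HCE_stmt : Prop :=
  ∀ (Λ : Finset V) (F : Set (V → Bool)) (S : Set V) (ρ : V → ℝ), Dep F (Λ : Set V) →
    ∀ f : (V → Bool) → ℝ,
      (∀ b, f b = ex1 (fun b' => open Classical in ind F (fun v => if v ∈ S then b v else b' v))) →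
      LF Λ f ∧ (∀ b, 0 ≤ f b) ∧ ex1 f = Pr F ∧
        bf ρ f f = Q (open Classical in fun v => if v ∈ S then ρ v else 1) F F ∧
        (∀ b, 0 < f b → ∃ b', (∀ v ∈ S, b' v = b v) ∧ b' ∈ F)

/-- INTERFACE (parts F and G): the second moment bound. `t` is the resampling probability. -/
def SM_stmt : Prop :=
  ∃ (m : ℕ) (C : ℝ), 0 < m ∧ 0 < C ∧ ∀ K : ℕ, ∃ N, K ≤ N ∧ m < N ∧
    0 < Pr (Ev fun c => two c 0 m (2 * N)) ∧
    (∫ t in (0 : ℝ)..1, Q (fun v => if sd 0 v ≤ N then t else 1)
      (Ev fun c => two c 0 m (2 * N)) (Ev fun c => two c 0 m (2 * N))) ≤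
        C * Pr (Ev fun c => two c 0 m (2 * N)) ^ 2

/-- HSB. Substitution `t = 1 - exp (-u)`: for `u ∈ [0, 1]` we have `dt = exp (-u) du ≥ du / 3`, and
`t ∈ [0, 1]`; the integrand `t ↦ bf (fun v => if v ∈ S then t else 1) f f` is continuous and nonnegative
(finite sum of products: `ex2_eq_sum`). -/
def HSB_stmt : Prop :=
  ∀ (Λ : Finset V) (f : (V → Bool) → ℝ) (S : Set V), LF Λ f →
    (∫ u in (0 : ℝ)..1, bf (open Classical in fun v => if v ∈ S then 1 - Real.exp (-u) else 1) f f) ≤
      3 * ∫ t in (0 : ℝ)..1, bf (open Classical in fun v => if v ∈ S then t else 1) f f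

/-- Truncation of arms (deterministic, `Con.cross` in Basic.lean). -/
def HTW_stmt : Prop :=
  ∀ (c : V → Bool) (x : V) (m m' n' n : ℕ), m ≤ m' → m' ≤ n' → n' ≤ n → two c x m n → two c x m' n'

/-- Two arms between the circles of radius `m` and `N` at some rational time in `[a, b]`. -/
def Hit (m N : ℕ) (a b : ℝ) : Set (V → Path) :=
  {X | ∃ q : ℚ, a ≤ q ∧ q ≤ b ∧ two (col (cfg X q)) 0 m N}

/-- HIT. From the second moment bound to hitting probabilities: HSM applied to the
`f` of HCE with `F = Ev (two c 0 m (2N))`, `S = {v | sd 0 v ≤ N}`, with HSB; `0 < f (cfg X q)` gives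
`b' = cfg X q` on the box with `two (col b') 0 m (2N)`, hence `two (col b') 0 m N` (HTW), which depends
only on the box. Then `Hit m N' ⊆ Hit m N` for `N ≤ N'` (HTW). -/
def HIT_stmt : Prop :=
  ∃ m : ℕ, 0 < m ∧ ∀ a b : ℝ, 0 ≤ a → a < b → b ≤ a + 1 → ∃ c : ℝ, 0 < c ∧
    ∀ N, m < N → c ≤ PV.real (Hit m N a b)

/-- Two infinite arms, in the sense of the compactness argument. -/
def InfHit (a b : ℝ) : Set (V → Path) := {X | ∃ m : ℕ, ∀ N, m < N → X ∈ Hit m N a b}

/-- H01. The zero-one law. `Hit m N a b` is measurable (HMS) and depends only on the `X v` with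
`m ≤ sd 0 v`; `Hit m N ⊆ Hit (m+1) N` for `m + 1 < N` (HTW), so for every `m₁` the event is the union
over `m ≥ m₁` only: it is measurable with respect to the sites outside every box. Then
`measure_zero_or_one_of_measurableSet_limsup`, or: it is independent of every cylinder, hence (π-λ,
`IndepSets.indep`) of itself. -/
def H01_stmt : Prop := ∀ a b : ℝ, MeasurableSet (InfHit a b) ∧ (PV (InfHit a b) = 0 ∨ PV (InfHit a b) = 1)

/-- HAS. HIT and H01: the events `Hit m N a b` are decreasing in `N`, so `PV (InfHit a b) ≥ c > 0` for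
`b ≤ a + 1`; larger windows by monotonicity. -/
def HAS_stmt : Prop := ∀ a b : ℝ, 0 ≤ a → a < b → ∀ᵐ X ∂PV, X ∈ InfHit a b

/-! ## No simultaneous rings, compactness -/

/-- HAT. Ring times have no atoms. `rt x (k+1) = x 0 + (sum of the other ones)`; Fubini after resampling
the coordinate `0`; HEX. -/
def HAT_stmt : Prop := ∀ (k : ℕ) (c : ℝ), nuT {x | rt x (k + 1) = c} = 0

/-- HNS. No simultaneous rings, and all clocks are good (HGD, HAT,
`Measure.infinitePi_map_eval_prod`, Fubini, countable union). -/
def HNS_stmt : Prop :=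
  ∀ᵐ X ∂PV, (∀ v, GoodT (X v).1) ∧
    ∀ u v : V, u ≠ v → ∀ k l : ℕ, rt (X u).1 (k + 1) ≠ rt (X v).1 (l + 1)

/-- Infinite cluster of colour `k`. -/
def Perc (k : Bool) (c : V → Bool) : Prop := ∃ u, {v | Conn c k Set.univ u v}.Infinite

/-- HK1. Long arms give infinite clusters (pigeonhole over the finite circle of radius `m`). -/
def HK1_stmt : Prop :=
  ∀ (c : V → Bool) (m : ℕ), (∀ N, m < N → two c 0 m N) → Perc true c ∧ Perc false c

/-- HK2. Changing one site keeps an infinite cluster: the cluster of `u` is contained in the union of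
`{v₀}`, the new cluster of `u` and the new clusters of the (finitely many) neighbours of `v₀` (last visit
of a path to `v₀`). -/
def HK2_stmt : Prop :=
  ∀ (c c' : V → Bool) (k : Bool) (v₀ : V), (∀ v, v ≠ v₀ → c' v = c v) → Perc k c → Perc k c'

/-- HCP. Compactness (deterministic). Let `q_N ∈ [a, b]` be the times; a subsequence converges to `t`.
Either infinitely many `q_N ≥ t`: then by HRC `cfg X q_N = cfg X t` on every finite box for large such `N`,
so `two (col (cfg X t)) 0 m M` for all `M` (with HTW), conclude by HK1. Or `q_N < t` for infinitely many `N`: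
the same with the left limit configuration `b` (HRC), which differs from `cfg X t` in at most one site because
at most one site rings at time `t`; HK1 for `b`, then HK2 for both colours. -/
def HCP_stmt : Prop :=
  ∀ X : V → Path, (∀ v, GoodT (X v).1) →
    (∀ u v : V, u ≠ v → ∀ k l : ℕ, rt (X u).1 (k + 1) ≠ rt (X v).1 (l + 1)) →
    ∀ a b : ℝ, 0 ≤ a → a ≤ b → X ∈ InfHit a b →
      ∃ t, a ≤ t ∧ t ≤ b ∧ Perc true (col (cfg X t)) ∧ Perc false (col (cfg X t))

/-! ## Dictionary with `ℤ²` and the final transfer -/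

/-- The site of the fine grid which represents an edge of `ℤ²`: the vertex `x` of `ℤ²` is the site `2x`,
the edge `{u, v}` is the site `u + v`, the dual vertex `a + (1/2, 1/2)` is the site `2a + (1, 1)`. -/
def site (e : DynPerc.Edge) : V := Sym2.lift ⟨fun u v : ℤ × ℤ => u + v, fun u v => add_comm u v⟩ e.1

/-- HSI. `site` is injective, and the sites of edges are the mixed sites. -/
def HSI_stmt : Prop :=
  Function.Injective site ∧ ∀ v : V, (∃ e, site e = v) ↔ ¬ Even (v.1 + v.2)

/-- HDB. Dictionary for black clusters. In the fine grid a black site is a primal vertex or an open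
edge, whose only black neighbours are its two end points. So `Conn (col b) true univ (2u) (2v)` implies
that `u` and `v` are connected in `openGraph ω` (induction along the path: invariant for primal sites: reachable
from `u`; for edge sites: open and both end points reachable), and every black site is at distance at
most `1` from a primal site of its cluster. -/
def HDB_stmt : Prop :=
  ∀ (ω : DynPerc.Edge → Bool) (b : V → Bool), (∀ e, b (site e) = ω e) → Perc true (col b) →
    DynPerc.BlackPerc ω

/-- HDW. Dictionary for white clusters. -/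
def HDW_stmt : Prop :=
  ∀ (ω : DynPerc.Edge → Bool) (b : V → Bool), (∀ e, b (site e) = ω e) → Perc false (col b) →
    DynPerc.WhitePerc ω

/-- HLA. Law of the clocks and coins of a dynamical percolation
(`iIndepFun_iff_map_fun_eq_infinitePi_map`, `IndepFun.map_prod_eq_prod_map_map`). -/
def HLA_stmt : Prop :=
  ∀ (Ω : Type) [MeasurableSpace Ω] (P : Measure Ω) [IsProbabilityMeasure P]
    (τ : DynPerc.Edge → ℕ → Ω → ℝ) (U : DynPerc.Edge → ℕ → Ω → Bool), DynPerc.IsDynPerc P τ U →
    P.map (fun x e => ((fun k => τ e k x), (fun k => U e k x)) : Ω → DynPerc.Edge → Path) =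
      Measure.infinitePi fun _ : DynPerc.Edge => nu

open Classical in
/-- HMX. The clocks of the edges completed by independent clocks at the other sites have law `PV`
(`Measure.eq_infinitePi`, like `map_mix` in Fin.lean; use HSI for the injectivity). -/
def HMX_stmt : Prop :=
  ((Measure.infinitePi fun _ : DynPerc.Edge => nu).prod PV).map
    (fun p v => if h : ∃ e, site e = v then p.1 h.choose else p.2 v) = PV

/-- HNV. Dynamical percolation exists (the product space). -/
def HNV_stmt : Prop :=
  ∃ (Ω : Type) (_ : MeasurableSpace Ω) (P : Measure Ω) (_ : IsProbabilityMeasure P)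
    (τ : DynPerc.Edge → ℕ → Ω → ℝ) (U : DynPerc.Edge → ℕ → Ω → Bool), DynPerc.IsDynPerc P τ U

/-- HFI. The final theorem: in every time interval there is a time with both infinite clusters. -/
def HFI_stmt : Prop :=
  ∀ (Ω : Type) [MeasurableSpace Ω] (P : Measure Ω) [IsProbabilityMeasure P]
    (τ : DynPerc.Edge → ℕ → Ω → ℝ) (U : DynPerc.Edge → ℕ → Ω → Bool), DynPerc.IsDynPerc P τ U →
    ∀ᵐ x ∂P, ∀ a b : ℝ, 0 ≤ a → a < b → ∃ t, a ≤ t ∧ t ≤ b ∧
      DynPerc.BlackPerc (DynPerc.state τ U x t) ∧ DynPerc.WhitePerc (DynPerc.state τ U x t)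

end DP
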