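import Pool.Agent.helper96.DP.API
import Pool.Agent.helper95.DP.Fin

namespace DP

open MeasureTheory

theorem Bmono : Bmono_stmt := by
  intro ρ F F' G G' hF hG
  unfold Q
  exact measureReal_mono (fun w hw => ⟨hF hw.1, hG hw.2⟩) (measure_ne_top _ _)

theorem Bunion : Bunion_stmt := by
  intro ρ N M F G
  have h1 : Q ρ (⋃ i, F i) (⋃ j, G j) ≤
      (PP ρ).real (⋃ i, ⋃ j, {w | (fun v => (w v).1) ∈ F i ∧ (fun v => (w v).2) ∈ G j}) := by
    unfold Q
    refine measureReal_mono (fun w hw => ?_) (measure_ne_top _ _)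
    obtain ⟨h1, h2⟩ := hw
    obtain ⟨i, hi⟩ := Set.mem_iUnion.1 h1
    obtain ⟨j, hj⟩ := Set.mem_iUnion.1 h2
    exact Set.mem_iUnion.2 ⟨i, Set.mem_iUnion.2 ⟨j, hi, hj⟩⟩
  refine h1.trans ((measureReal_iUnion_fintype_le _).trans ?_)
  exact Finset.sum_le_sum fun i _ => measureReal_iUnion_fintype_le _

theorem Bsub : Bsub_stmt := by
  intro ρ F F' G
  constructor
  · unfold Q
    refine le_trans (measureReal_mono (fun w hw => ?_) (measure_ne_top _ _))
      (measureReal_union_le _ _)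
    rcases hw with ⟨h | h, h'⟩
    · exact Or.inl ⟨h, h'⟩
    · exact Or.inr ⟨h, h'⟩
  · unfold Q
    refine le_trans (measureReal_mono (fun w hw => ?_) (measure_ne_top _ _))
      (measureReal_union_le _ _)
    rcases hw with ⟨h', h | h⟩
    · exact Or.inl ⟨h', h⟩
    · exact Or.inr ⟨h', h⟩

theorem Bsymm : Bsymm_stmt := by
  intro ρ F G A hF hG
  obtain ⟨Λ, -, h1, h2⟩ := hF.common hG
  rw [Q_eq ρ h1 h2, Q_eq ρ h2 h1]
  exact bf_symm ρ h1.lf h2.lf

theorem Bcongr : Bcongr_stmt := by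
  intro ρ ρ' F G A hF hG h
  obtain ⟨Λ, hΛ, h1, h2⟩ := hF.common hG
  rw [Set.union_self] at hΛ
  rw [Q_eq ρ h1 h2, Q_eq ρ' h1 h2]
  exact bf_congr h1.lf h2.lf fun v hv => h v (hΛ hv)

/-- Without noise. -/
theorem bf_zero {Λ : Finset V} {f g : (V → Bool) → ℝ} {ρ : V → ℝ} (hf : LF Λ f) (hg : LF Λ g)
    (h : ∀ v ∈ Λ, ρ v = 0) : bf ρ f g = ex1 (fun b => f b * g b) := by
  classical
  induction Λ using Finset.induction_on generalizing f g with
  | empty =>
    have e1 : (fun w : V → Bool × Bool => f (fun v => (w v).1) * g (fun v => (w v).2)) =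
        fun _ => f (fun _ => false) * g (fun _ => false) :=
      funext fun w => by rw [hf.empty _ (fun _ => false), hg.empty _ (fun _ => false)]
    have e2 : (fun b => f b * g b) = fun _ => f (fun _ => false) * g (fun _ => false) :=
      funext fun w => by rw [hf.empty w (fun _ => false), hg.empty w (fun _ => false)]
    unfold bf
    rw [e1, e2, ex2_const, ex1_const]
  | insert v s hv ih =>
    have h0 : clip (ρ v) = 0 := by
      rw [h v (Finset.mem_insert_self v s)]; exact clip_of_mem le_rfl zero_le_one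
    have hs : ∀ u ∈ s, ρ u = 0 := fun u hu => h u (Finset.mem_insert_of_mem hu)
    rw [bf_site ρ hf hg v, h0, ih (hf.upd true) (hg.upd true) hs,
      ih (hf.upd false) (hg.upd false) hs, ex1_site (hf.comp₂ hg (· * ·)) v]
    have e : ∀ a : Bool, ex1 (fun b => f (Function.update b v a) * g (Function.update b v a)) =
        ex1 (fun b => upd f v a b * upd g v a b) := fun _ => rfl
    rw [e, e]
    ring

theorem Bzero : Bzero_stmt := by
  intro ρ F G A hF hG h
  obtain ⟨Λ, hΛ, h1, h2⟩ := hF.common hG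
  rw [Set.union_self] at hΛ
  have h3 : Dep (F ∩ G) (Λ : Set V) := fun b b' hb =>
    and_congr (h1 b b' hb) (h2 b b' hb)
  rw [Q_eq ρ h1 h2, Pr_eq h3, bf_zero h1.lf h2.lf fun v hv => h v (hΛ hv)]
  congr 1; funext b
  exact (ind_inter F G b).symm

/-- Full noise. -/
theorem bf_full {Λ : Finset V} {f g : (V → Bool) → ℝ} {ρ : V → ℝ} (hf : LF Λ f) (hg : LF Λ g)
    (h : ∀ v ∈ Λ, ρ v = 1) : bf ρ f g = ex1 f * ex1 g := by
  classical
  induction Λ using Finset.induction_on generalizing f g with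
  | empty =>
    have e1 : (fun w : V → Bool × Bool => f (fun v => (w v).1) * g (fun v => (w v).2)) =
        fun _ => f (fun _ => false) * g (fun _ => false) :=
      funext fun w => by rw [hf.empty _ (fun _ => false), hg.empty _ (fun _ => false)]
    have e2 : f = fun _ => f (fun _ => false) := funext fun w => hf.empty _ _
    have e3 : g = fun _ => g (fun _ => false) := funext fun w => hg.empty _ _
    unfold bf
    rw [e1, e2, e3, ex2_const, ex1_const, ex1_const]
  | insert v s hv ih =>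
    have h0 : clip (ρ v) = 1 := by
      rw [h v (Finset.mem_insert_self v s)]; exact clip_of_mem zero_le_one le_rfl
    have hs : ∀ u ∈ s, ρ u = 1 := fun u hu => h u (Finset.mem_insert_of_mem hu)
    rw [bf_site ρ hf hg v, h0, ih (hf.upd true) (hg.upd true) hs,
      ih (hf.upd false) (hg.upd false) hs, ih (hf.upd true) (hg.upd false) hs,
      ih (hf.upd false) (hg.upd true) hs, ex1_site hf v, ex1_site hg v]
    have e : ∀ (f : (V → Bool) → ℝ) (a : Bool), ex1 (fun b => f (Function.update b v a)) =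
        ex1 (upd f v a) := fun _ _ => rfl
    rw [e, e, e, e]
    ring

theorem Bone : Bone_stmt := by
  intro ρ F G A hF hG h
  obtain ⟨Λ, hΛ, h1, h2⟩ := hF.common hG
  rw [Set.union_self] at hΛ
  rw [Q_eq ρ h1 h2, Pr_eq h1, Pr_eq h2, bf_full h1.lf h2.lf fun v hv => h v (hΛ hv)]

theorem Bmarg : Bmarg_stmt := by
  intro ρ F A hF
  obtain ⟨Λ, hΛ, h1⟩ := hF
  have h2 : Dep (Set.univ : Set (V → Bool)) (Λ : Set V) := fun _ _ _ => Iff.rfl
  rw [Q_eq ρ h1 h2, Pr_eq h1]
  have e : ind (Set.univ : Set (V → Bool)) = fun _ => 1 := funext fun b => ind_of_mem trivial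
  rw [e, bf_one_right ρ h1.lf]

theorem clip_mono {r r' : ℝ} (h : r ≤ r') : clip r ≤ clip r' :=
  max_le_max le_rfl (min_le_min le_rfl h)

/-- Monotonicity in the noise. -/
theorem bf_anti {Λ : Finset V} {f : (V → Bool) → ℝ} {ρ ρ' : V → ℝ} (hf : LF Λ f)
    (h : ∀ v ∈ Λ, ρ v ≤ ρ' v) : bf ρ' f f ≤ bf ρ f f := by
  classical
  -- change the profile on the sites of a subset
  have key : ∀ s : Finset V, s ⊆ Λ →
      bf (fun v => if v ∈ s then ρ' v else ρ v) f f ≤ bf ρ f f := by
    intro s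
    induction s using Finset.induction_on with
    | empty => intro _; simp
    | insert v s hv ih =>
      intro hs
      refine le_trans ?_ (ih fun u hu => hs (Finset.mem_insert_of_mem hu))
      have h1 := bf_diff (fun v => if v ∈ s then ρ' v else ρ v) hf hf v (ρ' v)
      have h2 : Function.update (fun v => if v ∈ s then ρ' v else ρ v) v (ρ' v) =
          fun u => if u ∈ insert v s then ρ' u else ρ u := by
        funext u
        by_cases hu : u = v
        · subst hu; simp
        · rw [Function.update_of_ne hu]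
          simp [Finset.mem_insert, hu]
      rw [h2] at h1
      have h3 : 0 ≤ bf (fun v => if v ∈ s then ρ' v else ρ v) (dv v f) (dv v f) :=
        bf_nonneg _ (hf.dv' v)
      have h4 : clip (ρ v) ≤ clip (ρ' v) := clip_mono (h v (hs (Finset.mem_insert_self v s)))
      rw [if_neg hv] at h1
      have h5 : 0 ≤ (clip (ρ' v) - clip (ρ v)) / 4 *
          bf (fun v => if v ∈ s then ρ' v else ρ v) (dv v f) (dv v f) :=
        mul_nonneg (by linarith) h3
      linarith
  refine le_trans (le_of_eq ?_) (key Λ subset_rfl)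
  exact bf_congr hf hf fun v hv => by simp [hv]

theorem Banti : Banti_stmt := by
  intro ρ ρ' F A _ _ hF h
  obtain ⟨Λ, hΛ, h1⟩ := hF
  rw [Q_eq ρ h1 h1, Q_eq ρ' h1 h1]
  exact bf_anti h1.lf fun v hv => h v (hΛ hv)

theorem Bcs : Bcs_stmt := by
  intro ρ F G A _ hF hG
  obtain ⟨Λ, hΛ, h1, h2⟩ := hF.common hG
  rw [Q_eq ρ h1 h2, Q_eq ρ h1 h1, Q_eq ρ h2 h2]
  exact bf_cs ρ h1.lf h2.lf

theorem Bsq : Bsq_stmt := by
  intro ρ F A _ hF
  obtain ⟨Λ, hΛ, h1⟩ := hF
  rw [Q_eq ρ h1 h1, Pr_eq h1]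
  exact sq_ex1_le ρ h1.lf

end DP
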