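import Pool.Agent.helper3.DP.SpecG2
import Pool.Agent.helper96.DP.Basic

namespace DP

open MeasureTheory

theorem G3D_sub {c : V → Bool} {k : Bool} {g : V} {ℓ : ℕ} {S : Set V} (h : Loop c k g ℓ S) :
    ∀ w ∈ S, ℓ < sd g w ∧ sd g w < 3 * ℓ ∧ c w = k := by
  obtain ⟨l, u, h1, -, rfl⟩ := h
  exact fun w hw => h1.2.2.2 w hw

theorem G3D_ne {c : V → Bool} {k : Bool} {g : V} {ℓ : ℕ} {S : Set V} (h : Loop c k g ℓ S) :
    S.Nonempty := by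
  obtain ⟨l, u, h1, -, rfl⟩ := h
  exact ⟨u, h1.mem_left⟩

theorem G3D_zpt (x : V) (n : ℕ) (k : Bool) : sd x (zpt x n (kix k)) = n := by
  cases k <;> simp [kix, zpt, sd]

/-- The first or last cell of the switch. -/
def G3D_cell (k : Bool) (n : ℤ) : ℤ × ℤ := if k = true then (n, 0) else (0, n)

theorem G3D_cel (x : V) (ℓ n : ℕ) (k : Bool) :
    Gate.cel x ℓ (G3D_cell k n) = zpt x (2 * n * ℓ) (kix k) := by
  cases k <;> simp [G3D_cell, Gate.cel, zpt, kix] <;> ring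

theorem G3D (hLH : LH_stmt) (hLC : LC_stmt) (hLOOPS : Gate.LOOPS_stmt) (hGXM : GXM_stmt)
    (hGXC : GXC_stmt) (hGXR : GXR_stmt) : G3D_stmt := by
  rintro c γ x k₀ L i j hi hk hL ⟨hU, hO, hSt, hSf⟩
  suffices key : ∀ k, arm c k x (2 ^ k₀) (2 ^ L) from ⟨key true, key false⟩
  intro k
  have hSw : Sw c k j x (2 ^ (i - 4)) := by cases k; exacts [hSf, hSt]
  set ℓ : ℕ := 2 ^ (i - 4) with hℓ
  have hℓ1 : 1 ≤ ℓ := Nat.one_le_two_pow
  have e1 : 2 ^ (i + 1) = 32 * ℓ := by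
    rw [hℓ, show i + 1 = 5 + (i - 4) by omega, pow_add]; norm_num
  have e2 : 2 ^ (i + 4) = 256 * ℓ := by
    rw [hℓ, show i + 4 = 8 + (i - 4) by omega, pow_add]; norm_num
  have h0 : 2 ^ k₀ ≤ 8 * ℓ := by
    have : 8 * ℓ = 2 ^ (i - 1) := by
      rw [hℓ, show i - 1 = 3 + (i - 4) by omega, pow_add]; norm_num
    rw [this]
    exact Nat.pow_le_pow_right (by norm_num) (by omega)
  have hL' : 512 * ℓ ≤ 2 ^ L := by
    have : 512 * ℓ = 2 ^ (i + 5) := by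
      rw [hℓ, show i + 5 = 9 + (i - 4) by omega, pow_add]; norm_num
    rw [this]
    exact Nat.pow_le_pow_right (by norm_num) hL
  obtain ⟨p, hp, u, hu, hzu, hcon⟩ :=
    ((hGXM.2 c true x (2 ^ (i + 1)) (Dfree true x (2 ^ k₀))).1 hU.2) k
  obtain ⟨p', hp', u', hu', hzu', hcon'⟩ :=
    ((hGXM.2 c false x (2 ^ (i + 4)) (Dfree false x (2 ^ L))).1 hO) k
  rw [e1] at hu hzu hcon
  rw [e2] at hu' hzu' hcon'
  have hp : sd x p = 2 ^ k₀ := hp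
  have hp' : sd x p' = 2 ^ L := hp'
  obtain ⟨hfull, S₃, hS₃⟩ := hSw
  have hccon : Gate.CCon (swc k j) (G3D_cell k 16) (G3D_cell k 128) := by
    cases k
    · exact (hGXC j).2.1
    · exact (hGXC j).1
  have ha : G3D_cell k 16 ∈ swc k j := hccon.1
  have hb : G3D_cell k 128 ∈ swc k j := by
    rcases Relation.ReflTransGen.cases_tail hccon.2 with h | ⟨_, _, h⟩
    · rw [h]; exact ha
    · exact h.2
  have hfull' : ∀ q ∈ swc k j, ∃ S, Loop c k (Gate.cel x ℓ q) ℓ S := hfull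
  obtain ⟨S₁, hS₁⟩ := hfull' _ ha
  obtain ⟨S₂, hS₂⟩ := hfull' _ hb
  have c1 : Gate.cel x ℓ (G3D_cell k 16) = zpt x (32 * ℓ) (kix k) := by
    have := G3D_cel x ℓ 16 k; simpa using this
  have c2 : Gate.cel x ℓ (G3D_cell k 128) = zpt x (256 * ℓ) (kix k) := by
    have := G3D_cel x ℓ 128 k; simpa using this
  have hne : G3D_cell k 16 ≠ G3D_cell k 128 := by
    cases k <;> simp [G3D_cell]
  have d1 : sd x (zpt x (32 * ℓ) (kix k)) = 32 * ℓ := G3D_zpt _ _ _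
  have d2 : sd x (zpt x (256 * ℓ) (kix k)) = 256 * ℓ := G3D_zpt _ _ _
  -- the inner arm hits the loop of the first cell
  have t1 := sd_triangle x p (zpt x (32 * ℓ) (kix k))
  rw [sd_comm p, d1, hp] at t1
  obtain ⟨z₁, hz₁, w1⟩ := hLH c k _ ℓ S₁ (c1 ▸ hS₁) _ u p (Con.symm hcon) (by omega) (by omega)
  have a1 : Con _ p z₁ := hcon.trans w1
  -- the loops
  obtain ⟨z₂, hz₂⟩ := G3D_ne hS₂
  have a2 := hLOOPS c k x ℓ (swc k j) hfull' _ _ hccon hne S₁ S₂ hS₁ hS₂ z₁ hz₁ z₂ hz₂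
  have s1 := G3D_sub hS₁ z₁ hz₁
  have s2 := G3D_sub hS₂ z₂ hz₂
  rw [c1] at s1
  rw [c2] at s2
  -- the hook
  have t2 := sd_triangle x z₁ (zpt x (256 * ℓ) (kix k))
  have t3 := sd_triangle x (zpt x (32 * ℓ) (kix k)) z₁
  rw [d2, sd_comm z₁] at t2
  rw [d1] at t3
  obtain ⟨z₃, hz₃, w3⟩ := hLH c k _ (4 * ℓ) S₃ hS₃ _ z₂ z₁ (Con.symm a2) (by omega) (by omega)
  have t4 := sd_triangle x (zpt x (256 * ℓ) (kix k)) p'
  rw [d2, hp'] at t4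
  obtain ⟨z₄, hz₄, w4⟩ := hLH c k _ (4 * ℓ) S₃ hS₃ _ u' p' (Con.symm hcon') (by omega) (by omega)
  have a3 := hLC c k _ (4 * ℓ) S₃ hS₃ z₃ hz₃ z₄ hz₄
  have a4 : Con _ z₄ p' := (w4.symm).trans (Con.symm hcon')
  -- everything stays in the annulus
  have r := (hGXR j x ℓ hℓ1).2 k
  have b1 : Conn c k (ann x (2 ^ k₀) (2 ^ L)) p z₁ := by
    refine Con.mono ?_ a1
    rintro w ⟨⟨hw1, hw2⟩, hw3⟩
    refine ⟨⟨?_, ?_⟩, hw3⟩
    · by_contra hlt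
      exact hw2 (Or.inl (by simpa [Dfree] using hlt))
    · have : sd x w ≤ 32 * ℓ := by simpa [HS, box] using hw1
      omega
  have b2 : Conn c k (ann x (2 ^ k₀) (2 ^ L)) z₁ z₂ := by
    refine Conn.mono ?_ a2
    rintro w ⟨q, hq, hw⟩
    have := r w (Or.inl ⟨q, hq, hw⟩)
    exact ⟨by omega, by omega⟩
  have b3 : Conn c k (ann x (2 ^ k₀) (2 ^ L)) z₂ z₃ := by
    refine Con.mono ?_ w3
    rintro w ⟨⟨q, hq, hw⟩, hw3⟩
    have := r w (Or.inl ⟨q, hq, hw⟩)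
    exact ⟨⟨by omega, by omega⟩, hw3⟩
  have b4 : Conn c k (ann x (2 ^ k₀) (2 ^ L)) z₃ z₄ := by
    refine Con.mono ?_ a3
    intro w hw
    have h1 := G3D_sub hS₃ w hw
    have := r w (Or.inr (by omega))
    exact ⟨⟨by omega, by omega⟩, h1.2.2⟩
  have b5 : Conn c k (ann x (2 ^ k₀) (2 ^ L)) z₄ p' := by
    refine Con.mono ?_ a4
    rintro w ⟨⟨hw1, hw2⟩, hw3⟩
    have h1 : 256 * ℓ ≤ sd x w := by simpa [HS] using hw1
    refine ⟨⟨by omega, ?_⟩, hw3⟩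
    by_contra hlt
    exact hw2 (Or.inl (by simpa [Dfree] using hlt))
  exact ⟨p, hp, p', hp', (((b1.trans b2).trans b3).trans b4).trans b5⟩

end DP
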