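import Pool.Agent.helper96.DP.SpecE
import Pool.Agent.helper96.DP.Basic
import Pool.Agent.helper74.DP.SE1
import Pool.Agent.helper78.DP.MM

namespace DP

theorem GL_sub {c : V → Bool} {k : Bool} {g : V} {ℓ : ℕ} {S : Set V} (h : Loop c k g ℓ S) :
    ∀ w ∈ S, ℓ < sd g w ∧ sd g w < 3 * ℓ ∧ c w = k := by
  obtain ⟨l, u, h1, -, rfl⟩ := h
  exact fun w hw => h1.2.2.2 w hw

theorem GL_ne {c : V → Bool} {k : Bool} {g : V} {ℓ : ℕ} {S : Set V} (h : Loop c k g ℓ S) :
    S.Nonempty := by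
  obtain ⟨l, u, h1, -, rfl⟩ := h
  exact ⟨u, h1.mem_left⟩

theorem GL_chain (x : V) (M l : ℕ) :
    Chn M ((List.range (2 ^ 9 + 1)).map fun t => zpt x (1024 * M + 2 * t * M) l) := by
  unfold Chn
  rw [List.isChain_map, List.isChain_iff_getElem]
  intro i hi
  rw [List.length_range] at hi
  simp only [List.getElem_range]
  have e1 : 2 * (i + 1) * M = 2 * i * M + 2 * M := by ring
  unfold gnb zpt
  have hl : l % 4 = 0 ∨ l % 4 = 1 ∨ l % 4 = 2 ∨ l % 4 = 3 := by omega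
  rcases hl with hl | hl | hl | hl
  · left; simp only [hl, if_true]; ext <;> push_cast <;> ring
  · right; right; left
    simp only [hl, if_true, show ¬ ((1 : ℕ) = 0) by norm_num, if_false]
    ext <;> push_cast <;> ring
  · right; left
    simp only [hl, if_true, show ¬ ((2 : ℕ) = 0) by norm_num, show ¬ ((2 : ℕ) = 1) by norm_num,
      if_false]
    ext <;> push_cast <;> ring
  · right; right; right
    simp only [hl, show ¬ ((3 : ℕ) = 0) by norm_num, show ¬ ((3 : ℕ) = 1) by norm_num,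
      show ¬ ((3 : ℕ) = 2) by norm_num, if_false]
    ext <;> push_cast <;> ring

/-- One arm through the loops and the chain. -/
theorem GL_arm (hLH : LH_stmt) (hLC : LC_stmt) (hCH1 : CH1_stmt) (c : V → Bool) (k : Bool) (x : V)
    (m n M l : ℕ) (hM : 1 ≤ M) (hm : 2 * m ≤ 1024 * M) (hn : 4096 * M ≤ n) (p u q w : V)
    (hp : sd x p = m) (hq : sd x q = n) (hu : sd (zpt x (1024 * M) l) u ≤ 16 * M)
    (hw : sd (zpt x (2048 * M) l) w ≤ 32 * M) (hpu : Conn c k (ann x m (1024 * M)) p u)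
    (hqw : Conn c k (ann x (2048 * M) n) q w)
    (h1 : ∃ S, Loop c k (zpt x (1024 * M) l) (32 * M) S)
    (h2 : ∃ S, Loop c k (zpt x (2048 * M) l) (64 * M) S)
    (h3 : Full c k M ((List.range (2 ^ 9 + 1)).map fun t => zpt x (1024 * M + 2 * t * M) l)) :
    Conn c k (ann x m n) p q := by
  obtain ⟨S₁, hS₁⟩ := h1
  obtain ⟨S₂, hS₂⟩ := h2
  have hne : ((List.range (2 ^ 9 + 1)).map fun t => zpt x (1024 * M + 2 * t * M) l) ≠ [] := by
    intro h
    have := congrArg List.length h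
    simp at this
  obtain ⟨U, hU1, hU2, hU3⟩ := hCH1 c k M _ h3 (GL_chain x M l) hne
  have g0 : zpt x (1024 * M) l ∈ (List.range (2 ^ 9 + 1)).map fun t =>
      zpt x (1024 * M + 2 * t * M) l :=
    List.mem_map.2 ⟨0, List.mem_range.2 (by norm_num), by simp⟩
  have g1 : zpt x (2048 * M) l ∈ (List.range (2 ^ 9 + 1)).map fun t =>
      zpt x (1024 * M + 2 * t * M) l :=
    List.mem_map.2 ⟨512, List.mem_range.2 (by norm_num), by
      show zpt x (1024 * M + 2 * 512 * M) l = _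
      congr 1; ring⟩
  obtain ⟨T₀, hT₀, hT₀U⟩ := hU3 _ g0
  obtain ⟨T₁, hT₁, hT₁U⟩ := hU3 _ g1
  obtain ⟨a, ha⟩ := GL_ne hT₀
  obtain ⟨b, hb⟩ := GL_ne hT₁
  have a1 := GL_sub hT₀ a ha
  have b1 := GL_sub hT₁ b hb
  have hab : Con U a b := hU2 a (hT₀U ha) b (hT₁U hb)
  have d1 := SE1_sd_zpt x (1024 * M) l
  have d2 := SE1_sd_zpt x (2048 * M) l
  -- distances
  have t1 := sd_triangle x p (zpt x (1024 * M) l)
  rw [sd_comm p] at t1
  have t2 := sd_triangle x b (zpt x (1024 * M) l)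
  rw [sd_comm b] at t2
  have t2' := sd_triangle x (zpt x (2048 * M) l) b
  have t2'' := sd_triangle x b (zpt x (2048 * M) l)
  rw [sd_comm b] at t2''
  have t6 := sd_triangle x (zpt x (1024 * M) l) b
  have t3 := sd_triangle x (zpt x (1024 * M) l) a
  have t4 := sd_triangle x a (zpt x (2048 * M) l)
  rw [sd_comm a] at t4
  have t5 := sd_triangle x (zpt x (2048 * M) l) q
  -- hits
  obtain ⟨z₁, hz₁, w1⟩ := hLH c k _ (32 * M) S₁ hS₁ _ u p (Con.symm hpu) (by omega) (by omega)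
  obtain ⟨z₂, hz₂, w2⟩ := hLH c k _ (32 * M) S₁ hS₁ U a b hab (by omega) (by omega)
  obtain ⟨z₃, hz₃, w3⟩ := hLH c k _ (64 * M) S₂ hS₂ U b a hab.symm (by omega) (by omega)
  obtain ⟨z₄, hz₄, w4⟩ := hLH c k _ (64 * M) S₂ hS₂ _ w q (Con.symm hqw) (by omega) (by omega)
  have hI : ({v | v ∈ ann x m (1024 * M) ∧ c v = k} : Set V) ⊆ {v | v ∈ ann x m n ∧ c v = k} := by
    rintro v ⟨⟨hv1, hv2⟩, hv3⟩
    exact ⟨⟨hv1, by omega⟩, hv3⟩
  have hO : ({v | v ∈ ann x (2048 * M) n ∧ c v = k} : Set V) ⊆ {v | v ∈ ann x m n ∧ c v = k} := by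
    rintro v ⟨⟨hv1, hv2⟩, hv3⟩
    exact ⟨⟨by omega, hv2⟩, hv3⟩
  have hS₁' : S₁ ⊆ {v | v ∈ ann x m n ∧ c v = k} := by
    intro v hv
    have h1 := GL_sub hS₁ v hv
    have e1 := sd_triangle x v (zpt x (1024 * M) l)
    rw [sd_comm v] at e1
    have e2 := sd_triangle x (zpt x (1024 * M) l) v
    exact ⟨⟨by omega, by omega⟩, h1.2.2⟩
  have hS₂' : S₂ ⊆ {v | v ∈ ann x m n ∧ c v = k} := by
    intro v hv
    have h1 := GL_sub hS₂ v hv
    have e1 := sd_triangle x v (zpt x (2048 * M) l)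
    rw [sd_comm v] at e1
    have e2 := sd_triangle x (zpt x (2048 * M) l) v
    exact ⟨⟨by omega, by omega⟩, h1.2.2⟩
  have hU' : U ⊆ {v | v ∈ ann x m n ∧ c v = k} := by
    intro v hv
    obtain ⟨⟨g, hg, hgv⟩, hcv⟩ := hU1 v hv
    rw [List.mem_map] at hg
    obtain ⟨t, ht, rfl⟩ := hg
    rw [List.mem_range] at ht
    have h1 : 2 * t * M ≤ 2 * 512 * M := Nat.mul_le_mul_right _ (by omega)
    have e0 := SE1_sd_zpt x (1024 * M + 2 * t * M) l
    have e1 := sd_triangle x v (zpt x (1024 * M + 2 * t * M) l)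
    rw [sd_comm v] at e1
    have e2 := sd_triangle x (zpt x (1024 * M + 2 * t * M) l) v
    exact ⟨⟨by omega, by omega⟩, hcv⟩
  have c1 : Con {v | v ∈ ann x m n ∧ c v = k} p z₁ := (Con.mono hI hpu).trans (w1.mono hI)
  have c2 := (hLC c k _ _ S₁ hS₁ z₁ hz₁ z₂ hz₂).mono hS₁'
  have c3 : Con {v | v ∈ ann x m n ∧ c v = k} z₂ z₃ :=
    ((w2.symm).trans (hab.trans w3)).mono hU'
  have c4 := (hLC c k _ _ S₂ hS₂ z₃ hz₃ z₄ hz₄).mono hS₂'
  have c5 : Con {v | v ∈ ann x m n ∧ c v = k} z₄ q := ((w4.symm).trans (Con.symm hqw)).mono hO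
  exact (((c1.trans c2).trans c3).trans c4).trans c5

/-- Both forms of marked arms give an arm at every standard point, if the other end is free. -/
theorem GL_mrk {c : V → Bool} {j : ℕ} (hj : j = 2 ∨ j = 4) {s : Bool} {x : V} {n m a A : ℕ}
    {y : ℕ → V} (h : Mrk c j s x n (Dfree s x m) y a A) : ∀ l < j, ∃ p ∈ bd x m, ∃ u ∈ bd x n,
      sd (y l) u ≤ a ∧ Conn c (kol l) (HS s x n \ (Dfree s x m).N (kol l)) p u := by
  intro l hl
  have hC : MrkC c j s x n (Dfree s x m) y a A (kol l) := by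
    cases kol l
    · exact h.2
    · exact h.1
  rcases hC with hC | hC
  · obtain ⟨p, hp, u, hu, h1, h2⟩ := hC l hl rfl
    refine ⟨p, hp, u, hu, h1, h2.mono ?_⟩
    exact fun v hv => ⟨hv.1, fun h => hv.2 (Or.inl h)⟩
  · have hl' : (l + 2) % j < j := Nat.mod_lt _ (by omega)
    have hk : kol ((l + 2) % j) = kol l := by
      unfold kol
      congr 1
      rcases hj with rfl | rfl <;> simp only [eq_iff_iff] <;> omega
    have hll : ((l + 2) % j + 2) % j = l := by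
      rcases hj with rfl | rfl <;> omega
    obtain ⟨p, hp, u, hu, h1, h2⟩ := hC ((l + 2) % j) hl' hk
    rw [hll] at h1
    refine ⟨p, hp, u, hu, h1, h2.mono ?_⟩
    exact fun v hv => ⟨hv.1, fun h => hv.2 (Or.inl h)⟩

theorem GLgl (hLH : LH_stmt) (hLC : LC_stmt) (hCH1 : CH1_stmt) (hOT : OT_stmt) (hOF : OF_stmt) :
    GL_stmt := by
  intro c j x m i n gs hj hx hm1 hm hn hi hI hO hL
  obtain ⟨M, hMdef⟩ : ∃ M, M = 2 ^ (i - 9) := ⟨_, rfl⟩
  have hM1 : 1 ≤ M := by rw [hMdef]; exact Nat.one_le_two_pow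
  have e1 : 2 ^ (i + 1) = 1024 * M := by
    rw [hMdef, show (1024 : ℕ) = 2 ^ 10 by norm_num, ← pow_add]; congr 1; omega
  have e2 : 2 ^ (i + 2) = 2048 * M := by
    rw [hMdef, show (2048 : ℕ) = 2 ^ 11 by norm_num, ← pow_add]; congr 1; omega
  have e5 : 2 ^ (i + 3) = 4096 * M := by
    rw [hMdef, show (4096 : ℕ) = 2 ^ 12 by norm_num, ← pow_add]; congr 1; omega
  have e3 : 2 ^ (i - 4) = 32 * M := by
    rw [hMdef, show (32 : ℕ) = 2 ^ 5 by norm_num, ← pow_add]; congr 1; omega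
  have e4 : 2 ^ (i - 3) = 64 * M := by
    rw [hMdef, show (64 : ℕ) = 2 ^ 6 by norm_num, ← pow_add]; congr 1; omega
  rw [e1] at hm hI
  rw [e2] at hO
  rw [e5] at hn
  simp only [e1, e2, e3, e4, ← hMdef] at hL
  have f1 : 1024 * M / 64 = 16 * M := by omega
  have f2 : 2048 * M / 64 = 32 * M := by omega
  have hIn := GL_mrk hj hI
  have hOu := GL_mrk hj hO
  rw [f1] at hIn
  rw [f2] at hOu
  -- the arms
  have hex : ∀ l, ∃ p q w : V, l < j → p ∈ bd x m ∧ q ∈ bd x n ∧ w ∈ bd x (2048 * M) ∧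
      sd (zpt x (2048 * M) l) w ≤ 32 * M ∧ Conn c (kol l) (ann x m n) p q ∧
      Conn c (kol l) (ann x (2048 * M) n) w q := by
    intro l
    by_cases hl : l < j
    · obtain ⟨p, hp, u, hu, hzu, hpu⟩ := hIn l hl
      obtain ⟨q, hq, w, hw, hzw, hqw⟩ := hOu l hl
      obtain ⟨h1, h2, h3, h4⟩ := hL l hl
      rw [h3] at h4
      have hpu' : Conn c (kol l) (ann x m (1024 * M)) p u := by
        refine hpu.mono ?_
        rintro v ⟨hv1, hv2⟩
        refine ⟨?_, hv1⟩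
        by_contra hlt
        exact hv2 (by simpa [Dfree] using hlt)
      have hqw' : Conn c (kol l) (ann x (2048 * M) n) q w := by
        refine hqw.mono ?_
        rintro v ⟨hv1, hv2⟩
        refine ⟨hv1, ?_⟩
        by_contra hlt
        exact hv2 (by simpa [Dfree] using hlt)
      exact ⟨p, q, w, fun _ => ⟨hp, hq, hw, hzw,
        GL_arm hLH hLC hCH1 c (kol l) x m n M l hM1 hm hn p u q w hp hq hzu hzw hpu' hqw' h1 h2 h4,
        hqw'.symm⟩⟩
    · exact ⟨x, x, x, fun h => absurd h hl⟩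
  choose p q w h using hex
  rcases hj with rfl | rfl
  · have h0 := h 0 (by norm_num)
    have h1 := h 1 (by norm_num)
    unfold ar
    rw [if_neg (by norm_num)]
    exact ⟨⟨p 0, h0.1, q 0, h0.2.1, h0.2.2.2.2.1⟩, ⟨p 1, h1.1, q 1, h1.2.1, h1.2.2.2.2.1⟩⟩
  · have h0 := h 0 (by norm_num)
    have h1 := h 1 (by norm_num)
    have h2 := h 2 (by norm_num)
    have h3 := h 3 (by norm_num)
    have k0 : kol 0 = true := by decide
    have k1 : kol 1 = false := by decide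
    have k2 : kol 2 = true := by decide
    have k3 : kol 3 = false := by decide
    rw [k0] at h0
    rw [k1] at h1
    rw [k2] at h2
    rw [k3] at h3
    unfold ar
    rw [if_pos rfl]
    have halt : alt x (2048 * M) (w 0) (w 1) (w 2) (w 3) :=
      MM_alt x (2048 * M) (by omega) w (fun l hl => (h l hl).2.2.1) (fun l hl => by
        rw [f2]; exact (h l hl).2.2.2.1)
    have halt' : alt x n (q 0) (q 1) (q 2) (q 3) :=
      hOT c true x (2048 * M) n hx (by omega) (by omega) _ _ _ _ _ _ _ _ halt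
        h0.2.2.2.2.2.colour_left h1.2.2.2.2.2.colour_left h2.2.2.2.2.2.colour_left
        h3.2.2.2.2.2.colour_left h0.2.1 h1.2.1 h2.2.1 h3.2.1 h0.2.2.2.2.2 h1.2.2.2.2.2
        h2.2.2.2.2.2 h3.2.2.2.2.2
    have hout : ∀ l < 4, outX c x m n (q l) := by
      intro l hl
      obtain ⟨a1, a2, a3, a4, a5, a6⟩ := h l hl
      refine ⟨a2, p l, a1, ?_⟩
      rw [a5.colour_right]
      exact a5.symm
    have hno := hOF c true x m n hx hm1 (by omega) _ _ _ _ halt' h0.2.2.2.2.1.colour_right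
      h1.2.2.2.2.1.colour_right h2.2.2.2.2.1.colour_right h3.2.2.2.2.1.colour_right
      (hout 0 (by norm_num)) (hout 1 (by norm_num)) (hout 2 (by norm_num)) (hout 3 (by norm_num))
    refine ⟨p 0, h0.1, p 2, h2.1, ⟨q 0, h0.2.1, h0.2.2.2.2.1⟩, ⟨q 2, h2.2.1, h2.2.2.2.2.1⟩, ?_⟩
    intro hc
    exact hno ((h0.2.2.2.2.1.symm.trans hc).trans h2.2.2.2.2.1)

end DP
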