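import Pool.Agent.helper95.DP.SpecH

namespace DP

open MeasureTheory ProbabilityTheory Filter Topology

/-- The sites of the completed family which represent edges. -/
theorem HFI_mix (hSI : HSI_stmt) (p : (DynPerc.Edge → Path) × (V → Path)) (e : DynPerc.Edge) :
    (open Classical in fun v => if h : ∃ e, site e = v then p.1 h.choose else p.2 v :
      V → Path) (site e) = p.1 e := by
  have h : ∃ e', site e' = site e := ⟨e, rfl⟩
  show (open Classical in if h : ∃ e', site e' = site e then p.1 h.choose else p.2 (site e)) = p.1 e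
  rw [dif_pos h]
  exact congrArg p.1 (hSI.1 h.choose_spec)

theorem HFI (hNS : HNS_stmt) (hAS : HAS_stmt) (hCP : HCP_stmt) (hSI : HSI_stmt) (hDB : HDB_stmt)
    (hDW : HDW_stmt) (hLA : HLA_stmt) (hMX : HMX_stmt) : HFI_stmt := by
  classical
  intro Ω _ P _ τ U hD
  -- the good event
  have h1 : ∀ᵐ X ∂PV, ((∀ v, GoodT (X v).1) ∧
      ∀ u v : V, u ≠ v → ∀ k l : ℕ, rt (X u).1 (k + 1) ≠ rt (X v).1 (l + 1)) ∧
      ∀ a b : ℚ, (0 : ℝ) ≤ a → (a : ℝ) < b → X ∈ InfHit a b := by
    refine hNS.and ?_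
    rw [ae_all_iff]; intro a
    rw [ae_all_iff]; intro b
    by_cases ha : (0 : ℝ) ≤ a
    · by_cases hab : (a : ℝ) < b
      · filter_upwards [hAS a b ha hab] with X hX _ _ using hX
      · exact Eventually.of_forall fun X _ h => absurd h hab
    · exact Eventually.of_forall fun X h => absurd h ha
  -- the completed family
  set Φ : (DynPerc.Edge → Path) × (V → Path) → V → Path :=
    fun p v => if h : ∃ e, site e = v then p.1 h.choose else p.2 v with hΦ
  have hΦm : Measurable Φ := by
    rw [measurable_pi_iff]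
    intro v
    by_cases h : ∃ e, site e = v
    · simp only [hΦ, dif_pos h]
      exact (measurable_pi_apply _).comp measurable_fst
    · simp only [hΦ, dif_neg h]
      exact (measurable_pi_apply _).comp measurable_snd
  have h2 : ((Measure.infinitePi fun _ : DynPerc.Edge => nu).prod PV).map Φ = PV := hMX
  rw [← h2] at h1
  have h3 := ae_of_ae_map hΦm.aemeasurable h1
  have h4 := Measure.ae_ae_of_ae_prod h3
  set Ψ : Ω → DynPerc.Edge → Path := fun x e => ((fun k => τ e k x), (fun k => U e k x)) with hΨ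
  have hΨm : Measurable Ψ := by
    rw [measurable_pi_iff]
    intro e
    exact (measurable_pi_iff.2 fun k => hD.measurable_wait e k).prodMk
      (measurable_pi_iff.2 fun k => hD.measurable_coin e k)
  have h5 : P.map Ψ = Measure.infinitePi fun _ : DynPerc.Edge => nu := hLA Ω P τ U hD
  rw [← h5] at h4
  have h6 := ae_of_ae_map hΨm.aemeasurable h4
  filter_upwards [h6] with x hx
  obtain ⟨z, ⟨hg, hs⟩, hz⟩ := hx.exists
  intro a b ha hab
  obtain ⟨q, hq1, hq2⟩ := exists_rat_btwn hab
  obtain ⟨q', hq1', hq2'⟩ := exists_rat_btwn hq2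
  obtain ⟨t, ht1, ht2, hB, hW⟩ := hCP (Φ (Ψ x, z)) hg hs q q' (ha.trans hq1.le) hq1'.le
    (hz q q' (ha.trans hq1.le) hq1')
  have hst : ∀ e, cfg (Φ (Ψ x, z)) t (site e) = DynPerc.state τ U x t e := by
    intro e
    have h7 : Φ (Ψ x, z) (site e) = Ψ x e := HFI_mix hSI (Ψ x, z) e
    show st (Φ (Ψ x, z) (site e)) t = _
    rw [h7]
    rfl
  exact ⟨t, hq1.le.trans ht1, ht2.trans hq2'.le, hDB _ _ hst hB, hDW _ _ hst hW⟩

end DP
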