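import Pool.Agent.helper1.DP.DEC
import Pool.Agent.helper1.DP.FA
import Pool.Agent.helper10.DP.QMX
import Pool.Agent.helper10.DP.TRQ
import Pool.Agent.helper13.DP.HLW
import Pool.Agent.helper13.DP.HPR
import Pool.Agent.helper14.DP.HTW
import Pool.Agent.helper17.DP.ABS
import Pool.Agent.helper17.DP.BFKG
import Pool.Agent.helper17.DP.HDB
import Pool.Agent.helper18.DP.EXR
import Pool.Agent.helper18.DP.HMX
import Pool.Agent.helper2.DP.BSTAB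
import Pool.Agent.helper20.DP.H01
import Pool.Agent.helper20.DP.HSM
import Pool.Agent.helper26.DP.HMS
import Pool.Agent.helper26.DP.HRC
import Pool.Agent.helper26.DP.MA
import Pool.Agent.helper29.DP.SUB
import Pool.Agent.helper3.DP.AsmG
import Pool.Agent.helper30.DP.BLG
import Pool.Agent.helper30.DP.HCP
import Pool.Agent.helper31.DP.BBLK
import Pool.Agent.helper31.DP.D3
import Pool.Agent.helper31.DP.HIN
import Pool.Agent.helper33.DP.CG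
import Pool.Agent.helper33.DP.HCE
import Pool.Agent.helper35.DP.BIND
import Pool.Agent.helper35.DP.GLO
import Pool.Agent.helper35.DP.NT
import Pool.Agent.helper38.DP.EXT
import Pool.Agent.helper38.DP.FRI
import Pool.Agent.helper38.DP.FRP
import Pool.Agent.helper38.DP.SF
import Pool.Agent.helper38.DP.WIN
import Pool.Agent.helper40.DP.LH
import Pool.Agent.helper45.DP.LB
import Pool.Agent.helper49.DP.BSYM
import Pool.Agent.helper49.DP.RT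
import Pool.Agent.helper49.DP.RTA
import Pool.Agent.helper51.DP.PVC
import Pool.Agent.helper51.DP.PVI
import Pool.Agent.helper51.DP.SQ
import Pool.Agent.helper51.DP.TC
import Pool.Agent.helper52.DP.HAS
import Pool.Agent.helper52.DP.HAT
import Pool.Agent.helper54.DP.HGD
import Pool.Agent.helper54.DP.HNS
import Pool.Agent.helper55.DP.BOTH
import Pool.Agent.helper55.DP.D2
import Pool.Agent.helper60.DP.HCN
import Pool.Agent.helper60.DP.KEY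
import Pool.Agent.helper60.DP.PSU
import Pool.Agent.helper60.DP.SM1
import Pool.Agent.helper60.DP.SMB
import Pool.Agent.helper60.DP.SMF
import Pool.Agent.helper60.DP.SMW
import Pool.Agent.helper61.DP.AsmA
import Pool.Agent.helper63.DP.DL
import Pool.Agent.helper64.DP.DA
import Pool.Agent.helper7.DP.MI
import Pool.Agent.helper72.DP.HEX
import Pool.Agent.helper73.DP.SE3
import Pool.Agent.helper74.DP.CH
import Pool.Agent.helper74.DP.SE1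
import Pool.Agent.helper78.DP.MM
import Pool.Agent.helper78.DP.SEPO
import Pool.Agent.helper78.DP.SUM
import Pool.Agent.helper79.DP.GRO
import Pool.Agent.helper79.DP.HSI
import Pool.Agent.helper80.DP.BBK
import Pool.Agent.helper80.DP.HIT
import Pool.Agent.helper80.DP.PSV
import Pool.Agent.helper80.DP.SMS
import Pool.Agent.helper81.DP.HK2
import Pool.Agent.helper81.DP.HSB
import Pool.Agent.helper82.DP.D1
import Pool.Agent.helper82.DP.HDW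
import Pool.Agent.helper82.DP.SE2
import Pool.Agent.helper91.DP.Bgen
import Pool.Agent.helper91.DP.HLA
import Pool.Agent.helper92.DP.DB
import Pool.Agent.helper92.DP.HK1
import Pool.Agent.helper92.DP.ML
import Pool.Agent.helper92.DP.SEPI
import Pool.Agent.helper93.DP.DE
import Pool.Agent.helper95.DP.BEASY
import Pool.Agent.helper95.DP.GL
import Pool.Agent.helper95.DP.HFI
import Pool.Agent.helper95.DP.QM
import Pool.Agent.helper95.DP.ST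
import Pool.Agent.helper98.DP.RTB
import Pool.Agent.helper99.DP.BRUS

/-!
# Assembly of all modules of the project dp
-/

namespace DP.Main

open DP

theorem m_HEX : HEX_stmt :=
  DP.HEX

theorem m_HGD : HGD_stmt :=
  DP.HGD m_HEX

theorem m_HAT : HAT_stmt :=
  DP.HAT

theorem m_HNS : HNS_stmt :=
  DP.HNS m_HGD m_HAT

theorem m_CG1 : CG1_stmt :=
  DP.CG1

theorem m_CG2 : CG2_stmt :=
  DP.CG2

theorem m_C1 : C1_stmt :=
  DP.Asm_C1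

theorem m_TO : TO_stmt :=
  DP.Asm_TO

theorem m_TI : TI_stmt :=
  DP.Asm_TI

theorem m_SQ : SQ_stmt :=
  DP.SQ

theorem m_Bone : Bone_stmt :=
  DP.Bone

theorem m_Bbk : Bbk_stmt :=
  DP.Bbk m_Bone

theorem m_LH : LH_stmt :=
  DP.Asm_LH

theorem m_MA : MA_stmt :=
  DP.MA m_Bbk m_LH

theorem m_D1 : D1_stmt :=
  DP.D1 m_C1 m_TO m_TI m_SQ m_MA m_CG1 m_CG2

theorem m_D2 : D2_stmt :=
  DP.D2 m_Bbk

theorem m_C2 : C2_stmt :=
  DP.Asm_C2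

theorem m_DB : DB_stmt :=
  DP.DB m_D1 m_D2 m_C2

theorem m_DL : DL_stmt :=
  DP.DL

theorem m_QO : QO_stmt :=
  DP.Asm_QO

theorem m_QI : QI_stmt :=
  DP.Asm_QI

theorem m_DE : DE_stmt :=
  DP.DE m_TO m_TI

theorem m_ML : ML_stmt :=
  DP.ML

theorem m_CG3 : CG3_stmt :=
  DP.CG3

theorem m_DA : DA_stmt :=
  DP.DA m_ML m_CG3

theorem m_D3 : D3_stmt :=
  DP.D3 m_CG1 m_QO m_QI m_DE m_DA

theorem m_NT : NT_stmt :=
  DP.NT m_D3 m_CG1 m_CG2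

theorem m_RTA : RTA_stmt :=
  DP.RTA

theorem m_RTB : RTB_stmt :=
  DP.RTB m_CG1 m_CG2

theorem m_RT : RT_stmt :=
  DP.RT m_RTA m_RTB

theorem m_LC : LC_stmt :=
  DP.Asm_LC

theorem m_LN : LN_stmt :=
  DP.LN m_LH

theorem m_CH1 : CH1_stmt :=
  DP.CH1 m_LC m_LN

theorem m_CH2 : CH2_stmt :=
  DP.CH2 m_LH m_CH1

theorem m_MI : MI_stmt :=
  DP.MI m_CH2

theorem m_Bgen : Bgen_stmt :=
  DP.Bgen

theorem m_Bfkg : Bfkg_stmt :=
  DP.Bfkg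

theorem m_Bmono : Bmono_stmt :=
  DP.Bmono

theorem m_Bsq : Bsq_stmt :=
  DP.Bsq

theorem m_CH3 : CH3_stmt :=
  DP.CH3 m_Bfkg m_Bsq

theorem m_CH4 : CH4_stmt :=
  DP.CH4

theorem m_SE2 : SE2_stmt :=
  DP.SE2 m_RT m_MI m_Bgen m_Bfkg m_Bmono m_CH3 m_CH4 m_C1

theorem m_Bsub : Bsub_stmt :=
  DP.Bsub

theorem m_Bunion : Bunion_stmt :=
  DP.Bunion

theorem m_Bcs : Bcs_stmt :=
  DP.Bcs

theorem m_Bindep : Bindep_stmt :=
  DP.Bindep

theorem m_Bmarg : Bmarg_stmt :=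
  DP.Bmarg

theorem m_Bsymm : Bsymm_stmt :=
  DP.Bsymm

theorem m_SE3 : SE3_stmt :=
  DP.SE3 m_CG1 m_CG2 m_DB m_DL m_NT m_SE2 m_Bmono m_Bsub m_Bunion m_Bcs m_Bindep m_Bmarg m_Bsymm

theorem m_SE1 : SE1_stmt :=
  DP.SE1 m_LH m_LC m_CH1 m_C1 m_Bfkg m_Bsq m_Bgen m_Bmono

theorem m_SEPI : SEPI_stmt :=
  DP.SEPI m_SE3 m_SE1

theorem m_SEPO : SEPO_stmt :=
  DP.SEPO m_SE1 m_SE3

theorem m_OT : OT_stmt :=
  DP.Asm_OT

theorem m_IF : IF_stmt :=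
  DP.Asm_IF

theorem m_MF : MF_stmt :=
  DP.MF m_OT m_IF

theorem m_MM : MM_stmt :=
  DP.MM m_OT

theorem m_LB : LB_stmt :=
  DP.LB m_C1 m_CH2 m_CH3 m_CH4 m_Bindep m_Bmono

theorem m_FI : FI_stmt :=
  DP.Asm_FI

theorem m_FO : FO_stmt :=
  DP.Asm_FO

theorem m_OF : OF_stmt :=
  DP.Asm_OF

theorem m_FA : FA_stmt :=
  DP.FA m_FI m_FO m_IF m_OF

theorem m_AM : AM_stmt :=
  DP.SUB_AM

theorem m_BOTH : BOTH_stmt :=
  DP.BOTH m_SEPI m_SEPO m_MF m_MM m_LB m_SE1 m_FA m_AM m_Bmono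

theorem m_RC : RC_stmt :=
  DP.Asm_RC

theorem m_FRI : FRI_stmt :=
  DP.FRI m_LH m_LC m_CH2 m_RC

theorem m_FRP : FRP_stmt :=
  DP.FRP m_BOTH m_FRI m_Bgen m_Bindep m_C1 m_Bfkg m_Bsq m_Bmono

theorem m_PVC : PVC_stmt :=
  DP.PVC

theorem m_AC : AC_stmt :=
  DP.Asm_AC

theorem m_TC : TC_stmt :=
  DP.TC m_FI m_IF m_AC

theorem m_PVI : PVI_stmt :=
  DP.PVI m_PVC m_TC m_AM

theorem m_Bsym : Bsym_stmt :=
  DP.Bsym

theorem m_Bzero : Bzero_stmt :=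
  DP.Bzero

theorem m_TRQ : TRQ_stmt :=
  DP.TRQ m_Bsym m_Bzero

theorem m_GL : GL_stmt :=
  DP.GLgl m_LH m_LC m_CH1 m_OT m_OF

theorem m_SF : SF_stmt :=
  DP.SF

theorem m_EXT : EXT_stmt :=
  DP.EXT m_SEPO m_SEPI m_LB m_SF m_FA m_AM m_Bmono

theorem m_QM : QM_stmt :=
  DP.QM m_GL m_SEPO m_SEPI m_LB m_EXT m_FA m_AM m_C1 m_Bfkg m_Bsq m_Bgen m_Bindep m_Bmono

theorem m_SUB : SUB_stmt :=
  DP.SUB m_Bmono m_Bindep

theorem m_QMX : QMX_stmt :=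
  DP.QMX m_QM m_EXT m_SUB

theorem m_EXR : EXR_stmt :=
  DP.EXR m_EXT

theorem m_QZ : QZ_stmt :=
  DP.QZ m_Bzero

theorem m_PSV : PSV_stmt :=
  DP.PSV m_PVI m_TRQ m_QMX m_EXR m_QZ

theorem m_HX : HX_stmt :=
  DP.Asm_HX

theorem m_F3 : F3_stmt :=
  DP.AsmG_F3 m_LH m_HX m_C1 m_C2

theorem m_GRO : GRO_stmt :=
  DP.GRO m_F3 m_QMX m_QZ

theorem m_SUM : SUM_stmt :=
  DP.SUM m_GRO m_EXR m_QZ

theorem m_PSU : PSU_stmt :=
  DP.PSU m_PSV m_SUM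

theorem m_Bstab : Bstab_stmt :=
  DP.Bstab m_Bzero

theorem m_Bcongr : Bcongr_stmt :=
  DP.Bcongr

theorem m_ST : ST_stmt :=
  DP.ST m_PSU m_Bstab m_Bcongr m_Bmono m_EXR

theorem m_Banti : Banti_stmt :=
  DP.Banti

theorem m_Brusso : Brusso_stmt :=
  DP.Brusso m_Banti

theorem m_GLF : GLF_stmt :=
  DP.GLF

theorem m_WIN : WIN_stmt :=
  DP.WIN m_FRP m_ST m_GRO m_QMX m_EXR m_TRQ m_QZ m_Brusso m_Banti m_GLF

theorem m_ABS : ABS_stmt :=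
  DP.ABS

theorem m_DEC : DEC_stmt :=
  DP.DEC m_WIN m_ABS m_QMX m_EXR

theorem m_GLA : GLA_stmt :=
  DP.GLA

theorem m_SMB : SMB_stmt :=
  DP.SMB m_DEC m_PVI m_TRQ m_QMX m_EXR m_Banti m_Bindep m_Bmono m_GLA m_AM

theorem m_BLG : BLG_stmt :=
  DP.BLG

theorem m_SMS : SMS_stmt :=
  DP.SMS m_SMB m_BLG

theorem m_Bblocks : Bblocks_stmt :=
  DP.Bblocks m_Banti

theorem m_SM1 : SM1_stmt :=
  DP.SM1 m_SMS m_BLG m_Bblocks m_Bone m_Bmarg m_Bindep m_Bmono m_QMX m_EXR m_QZ m_GLA m_AM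

theorem m_EX : EX_stmt :=
  DP.Asm_EX

theorem m_G4 : G4_stmt :=
  DP.AsmG_G4 m_LH m_LC m_LN m_RC m_HX m_EX m_C1 m_SE3 m_SEPI m_LB m_FA m_AM m_QM m_EXT m_SUB

theorem m_KEY : KEY_stmt :=
  DP.KEY m_G4

theorem m_SMW : SMW_stmt :=
  DP.SMW m_SM1 m_KEY m_EXR m_QZ

theorem m_SM : SM_stmt :=
  DP.SMF m_SMW m_Banti m_GLA

theorem m_HMS : HMS_stmt :=
  DP.HMS

theorem m_HCN : HCN_stmt :=
  DP.HCN

theorem m_HIN : HIN_stmt :=
  DP.HIN m_HEX m_HGD m_HCN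

theorem m_HPR : HPR_stmt :=
  DP.HPR m_HMS m_HIN

theorem m_HLW : HLW_stmt :=
  DP.HLW m_HMS m_HPR

theorem m_HRC : HRC_stmt :=
  DP.HRC m_HCN

theorem m_HSM : HSM_stmt :=
  DP.HSM m_HMS m_HLW m_HGD m_HRC

theorem m_HCE : HCE_stmt :=
  DP.HCE

theorem m_HSB : HSB_stmt :=
  DP.HSB

theorem m_HTW : HTW_stmt :=
  DP.HTW

theorem m_HIT : HIT_stmt :=
  DP.HIT m_SM m_HSM m_HCE m_HSB m_HTW

theorem m_H01 : H01_stmt :=
  DP.H01 m_HMS m_HTW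

theorem m_HAS : HAS_stmt :=
  DP.HAS m_HIT m_H01 m_HTW m_HMS

theorem m_HK1 : HK1_stmt :=
  DP.HK1

theorem m_HK2 : HK2_stmt :=
  DP.HK2

theorem m_HCP : HCP_stmt :=
  DP.HCP m_HRC m_HTW m_HK1 m_HK2

theorem m_HSI : HSI_stmt :=
  DP.HSI

theorem m_HDB : HDB_stmt :=
  DP.HDB

theorem m_HDW : HDW_stmt :=
  DP.HDW m_HSI

theorem m_HLA : HLA_stmt :=
  DP.HLA

theorem m_HMX : HMX_stmt :=
  DP.HMX m_HSI

theorem m_HFI : HFI_stmt :=
  DP.HFI m_HNS m_HAS m_HCP m_HSI m_HDB m_HDW m_HLA m_HMX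

end DP.Main
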