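import Pool.Agent.helper96.DP.SpecF
import Pool.Agent.helper96.DP.Basic
import Pool.Agent.helper29.DP.SUB

namespace DP

open MeasureTheory

theorem ST_mem (m n : ℕ) (v : V) : v ∈ annN m n ↔ v ∈ ann 0 m n := by
  have h0 : sd 0 v = max v.1.natAbs v.2.natAbs := by
    show max ((0 : ℤ) - v.1).natAbs ((0 : ℤ) - v.2).natAbs = _
    congr 1 <;> omega
  unfold annN ann
  rw [Finset.mem_filter, Finset.mem_product, Finset.mem_Icc, Finset.mem_Icc]
  show _ ↔ m ≤ sd 0 v ∧ sd 0 v ≤ n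
  rw [h0]
  constructor
  · rintro ⟨⟨h1, h2⟩, h3⟩
    exact ⟨h3, by omega⟩
  · rintro ⟨h1, h2⟩
    exact ⟨⟨by omega, by omega⟩, h1⟩

theorem ST (hPSU : PSU_stmt) (hstab : Bstab_stmt) (hcongr : Bcongr_stmt) (hmono : Bmono_stmt)
    (hEXR : EXR_stmt) : ST_stmt := by
  obtain ⟨k₀, hk⟩ := hPSU
  obtain ⟨C, hC, i₁, hE⟩ := hEXR
  refine ⟨max k₀ i₁, fun k hkk => ?_⟩
  obtain ⟨K, hK, hsum⟩ := hk k ((le_max_left _ _).trans hkk)
  refine ⟨1 / (2 * C ^ 2), 1 / K, by positivity, by positivity, fun i s hi hs0 hs1 hs => ?_⟩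
  set F : Set (V → Bool) := Ev fun c => four c 0 (2 ^ k) (2 ^ i) with hF
  set G : Set (V → Bool) := Ev fun c => four c 0 (2 ^ k) (2 ^ (i - 2)) with hG
  have eF : F = Ev fun c => ar 4 c 0 (2 ^ k) (2 ^ i) := by
    rw [hF]; simp only [ar, if_true]
  have eG : G = Ev fun c => ar 4 c 0 (2 ^ k) (2 ^ (i - 2)) := by
    rw [hG]; simp only [ar, if_true]
  have locF : Loc F (ann 0 (2 ^ k) (2 ^ i)) := by rw [eF]; exact SUB_loc _ _ _ _
  have locG : Loc G (ann 0 (2 ^ k) (2 ^ (i - 2))) := by rw [eG]; exact SUB_loc _ _ _ _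
  have hFG : F ⊆ G := by
    rw [eF, eG]
    intro b hb
    have e1 : (2 : ℕ) ^ k ≤ 2 ^ (i - 2) := Nat.pow_le_pow_right (by norm_num) (by omega)
    have e2 : (2 : ℕ) ^ (i - 2) ≤ 2 ^ i := Nat.pow_le_pow_right (by norm_num) (by omega)
    exact SUB_ar (c := col b) (j := 4) (x := 0) (le_refl (2 ^ k)) e1 e2 hb
  set L := annN (2 ^ k) (2 ^ (i - 2)) with hL
  have h1 := hstab L F _ (fun v => if v ∈ L then s else 0) s locF hs0 hs1
    (fun v hv => by simp [hv]) (fun v hv => by simp [hv])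
  have h2 := hsum i hi
  have h3 : Q (fun v => if v ∈ L then s else 0) F F ≤ Q (fun v => if v ∈ L then s else 0) G G :=
    hmono _ _ _ _ _ hFG hFG
  have h4 : Q (fun v => if v ∈ L then s else 0) G G = Q (fun _ => s) G G := by
    refine hcongr _ _ G G _ locG locG fun v hv => ?_
    rw [if_pos ((ST_mem _ _ v).2 hv)]
  have h5 := (hE 4 (fun _ => s) 0 k (i - 2) 2 (Or.inr rfl) (fun _ => ⟨hs0, hs1⟩) (by simp)
    ((le_max_right _ _).trans hkk) (by omega)).1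
  have e2 : i - 2 + 2 = i := by omega
  rw [e2] at h5
  have h6 : Q (fun _ => s) G G ≤ C ^ 2 * qa (fun _ => s) 4 0 (2 ^ k) (2 ^ i) := by
    rw [eG]; exact h5
  have h7 : Pr F = al k i := rfl
  have h8 : 0 ≤ al k i := by rw [← h7]; exact measureReal_nonneg
  rw [h7] at h1
  have h9 : s / 2 * ∑ v ∈ L, Pr (Piv {v} F) ≤ al k i / 2 := by
    have e3 : s / 2 * ∑ v ∈ L, Pr (Piv {v} F) ≤ s / 2 * (K * 4 ^ i * al k i ^ 2) :=
      mul_le_mul_of_nonneg_left h2 (by linarith)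
    have e4 : s / 2 * (K * 4 ^ i * al k i ^ 2) = (s * (4 ^ i * al k i)) * (K * al k i / 2) := by
      ring
    have e5 : (s * (4 ^ i * al k i)) * (K * al k i / 2) ≤ 1 / K * (K * al k i / 2) :=
      mul_le_mul_of_nonneg_right hs (by positivity)
    have e6 : 1 / K * (K * al k i / 2) = al k i / 2 := by field_simp
    linarith
  have hC2 : 0 < C ^ 2 := by positivity
  have h10 : al k i / 2 ≤ C ^ 2 * qa (fun _ => s) 4 0 (2 ^ k) (2 ^ i) := by linarith
  rw [div_mul_eq_mul_div, one_mul, div_le_iff₀ (by positivity)]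
  linarith

end DP
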